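import Mathlib

set_option autoImplicit false

/-! Ranks of apparition of primes in Lucas sequences: the statements (helper8). -/

namespace Pool.Agent.Zk8.LR

/-- the Lucas sequence `U_0 = 0`, `U_1 = 1`, `U_(n+2) = P U_(n+1) - Q U_n` -/
def U (P Q : ℤ) : ℕ → ℤ
  | 0 => 0
  | 1 => 1
  | n + 2 => P * U P Q (n + 1) - Q * U P Q n

/-- the Lucas sequence is nondegenerate: no term but `U_0` is zero -/
def Nondeg (P Q : ℤ) : Prop := ∀ n : ℕ, 1 ≤ n → U P Q n ≠ 0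

/-- `w` is the rank of apparition of `p`: the least positive index such that `p` divides `U_w` -/
def IsRank (p : ℕ) (P Q : ℤ) (w : ℕ) : Prop :=
  1 ≤ w ∧ (p : ℤ) ∣ U P Q w ∧ ∀ n : ℕ, 1 ≤ n → n < w → ¬ (p : ℤ) ∣ U P Q n

/-- **Ranks of apparition of almost all primes.** For all primes `p ≤ N` but `C N ^ (1 - η)`: `R w` holds for the rank of
apparition `w` of `p` in EVERY nondegenerate Lucas sequence with parameters `|P|, |Q| ≤ p ^ c`. -/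
def OnRanks (c : ℝ) (R : ℕ → Prop) : Prop :=
  ∃ C η : ℝ, 0 < η ∧ ∀ N : ℕ, 1 ≤ N →
    ({p : ℕ | p.Prime ∧ p ≤ N ∧ ¬ ∀ P Q : ℤ, (|P| : ℝ) ≤ (p : ℝ) ^ c → (|Q| : ℝ) ≤ (p : ℝ) ^ c → Nondeg P Q →
      ∀ w : ℕ, IsRank p P Q w → R w}.ncard : ℝ) ≤ C * (N : ℝ) ^ (1 - η)

/-- `w` is divisible by `p` or has a common divisor of size at least `p ^ (1 - l)` with `p - 1` or `p + 1`, for every prime
`p > y` which divides `m` exactly once -/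
def Shares3 (l y : ℝ) (m w : ℕ) : Prop :=
  ∀ p : ℕ, p.Prime → y < p → p ∣ m → ¬ p ^ 2 ∣ m →
    ((p : ℝ) ^ (1 - l) ≤ (Nat.gcd w (p - 1) : ℝ) ∨ p ∣ w ∨ (p : ℝ) ^ (1 - l) ≤ (Nat.gcd w (p + 1) : ℝ))

/-- **Numbers which share large divisors with `p - 1`, `p` or `p + 1`, `p ∣ m`, for almost all `m`.** For all `m ≤ N` but
`N / (log N) ^ A`: `R w` holds for EVERY `w ≤ N ^ B` such that for all primes `p > exp (√(log N))` dividing `m` exactly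
once `w` is divisible by `p` or `gcd (w, p - 1) ≥ p ^ (1 - l)` or `gcd (w, p + 1) ≥ p ^ (1 - l)`. -/
def OnShared3 (B l : ℝ) (R : ℕ → Prop) : Prop :=
  ∀ A : ℕ, ∃ N₀ : ℕ, ∀ N : ℕ, N₀ ≤ N →
    ({m : ℕ | 1 ≤ m ∧ m ≤ N ∧ ¬ ∀ w : ℕ, 1 ≤ w → (w : ℝ) ≤ (N : ℝ) ^ B →
      Shares3 l (Real.exp √(Real.log N)) m w → R w}.ncard : ℝ) ≤ N / Real.log N ^ A

/-- **Indices.** There is `c > 0` such that for all `m ≤ N` but `N / (log N) ^ A`: `R w` holds for EVERY `w ≤ N ^ B` for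
which `m` divides the term `U_w` of some nondegenerate Lucas sequence with parameters `|P|, |Q| ≤ exp (c √(log N))`. -/
def OnIndices (B : ℝ) (R : ℕ → Prop) : Prop :=
  ∃ c : ℝ, 0 < c ∧ ∀ A : ℕ, ∃ N₀ : ℕ, ∀ N : ℕ, N₀ ≤ N →
    ({m : ℕ | 1 ≤ m ∧ m ≤ N ∧ ¬ ∀ (P Q : ℤ) (w : ℕ), (|P| : ℝ) ≤ Real.exp (c * √(Real.log N)) →
      (|Q| : ℝ) ≤ Real.exp (c * √(Real.log N)) → Nondeg P Q → 1 ≤ w → (w : ℝ) ≤ (N : ℝ) ^ B → (m : ℤ) ∣ U P Q w →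
      R w}.ncard : ℝ) ≤ N / Real.log N ^ A

/-- the three statements for sets with a power saving, `θ` the exponent of the set -/
structure Everywhere (θ : ℝ) (R : ℕ → Prop) : Prop where
  ranks : θ < 1 → ∀ c : ℝ, 0 ≤ c → c < 1 / 2 → OnRanks c R
  shared : ∀ B l : ℝ, 0 ≤ B → 0 ≤ l → B * θ + l < 1 → OnShared3 B l R
  indices : ∀ B : ℝ, 0 ≤ B → B * θ < 1 / 2 → OnIndices B R

end Pool.Agent.Zk8.LR
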