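import Mathlib
import Pool.Agent.Zk8.LR.Defs

set_option autoImplicit false

/-! Ranks of apparition: arithmetic (helper8). -/

namespace Pool.Agent.Zk8.LR

lemma U_succ_succ (P Q : ℤ) (n : ℕ) : U P Q (n + 2) = P * U P Q (n + 1) - Q * U P Q n := rfl

/-- Binet's formula -/
lemma binet {F : Type*} [Field F] (P Q : ℤ) (α β : F) (h1 : α + β = P) (h2 : α * β = Q) (n : ℕ) :
    (U P Q n : F) * (α - β) = α ^ n - β ^ n := by
  induction n using Nat.twoStepInduction with
  | zero => simp [U]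
  | one => simp [U]
  | more n ih1 ih2 =>
    rw [U_succ_succ]
    push_cast
    have : ((P : F) * (U P Q (n + 1) : F) - Q * (U P Q n : F)) * (α - β) =
      P * ((U P Q (n + 1) : F) * (α - β)) - Q * ((U P Q n : F) * (α - β)) := by ring
    rw [this, ih1, ih2, ← h1, ← h2]
    ring

lemma binet' {F : Type*} [Field F] (P Q : ℤ) (α : F) (h1 : α + α = P) (h2 : α * α = Q) (n : ℕ) :
    (U P Q (n + 1) : F) = (n + 1) * α ^ n := by
  induction n using Nat.twoStepInduction with
  | zero => simp [U]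
  | one =>
    simp only [U_succ_succ, U]
    push_cast
    rw [← h1]
    ring
  | more n ih1 ih2 =>
    rw [U_succ_succ]
    push_cast
    rw [ih1, ih2, ← h1, ← h2]
    push_cast
    ring

/-- **The primes dividing the terms of a Lucas sequence.** -/
theorem rank_struct {p : ℕ} (hp : p.Prime) {P Q : ℤ} (hQ : ¬ (p : ℤ) ∣ Q) :
    ∃ z : ℕ, (z ∣ p - 1 ∨ z ∣ p ∨ z ∣ p + 1) ∧ ∀ n : ℕ, (p : ℤ) ∣ U P Q n ↔ z ∣ n := by
  classical
  haveI := Fact.mk hp
  let F := AlgebraicClosure (ZMod p)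
  haveI : CharP F p := charP_of_injective_algebraMap (algebraMap (ZMod p) F).injective p
  have hdvd : ∀ x : ℤ, (p : ℤ) ∣ x ↔ (x : F) = 0 := fun x => (CharP.intCast_eq_zero_iff F p x).symm
  have hfro : ∀ x : ℤ, (x : F) ^ p = x := by
    intro x
    have h1 : ((x : ZMod p)) ^ p = x := ZMod.pow_card _
    have h2 := congrArg (algebraMap (ZMod p) F) h1
    rwa [map_pow, map_intCast] at h2
  obtain ⟨α, hα⟩ : ∃ α : F, α ^ 2 - P * α + Q = 0 := by
    obtain ⟨z, hz⟩ := IsAlgClosed.exists_root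
      (Polynomial.X ^ 2 - Polynomial.C (P : F) * Polynomial.X + Polynomial.C (Q : F)) (by
        have : (Polynomial.X ^ 2 - Polynomial.C (P : F) * Polynomial.X + Polynomial.C (Q : F)).degree = 2 := by
          compute_degree!
        rw [this]
        norm_num)
    refine ⟨z, ?_⟩
    simpa [Polynomial.IsRoot] using hz
  obtain ⟨β, hβ⟩ : ∃ β : F, β = P - α := ⟨_, rfl⟩
  have h1 : α + β = P := by rw [hβ]; ring
  have h2 : α * β = Q := by rw [hβ]; linear_combination -hα
  have hQ0 : (Q : F) ≠ 0 := fun h => hQ ((hdvd Q).2 h)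
  have hα0 : α ≠ 0 := by
    rintro rfl
    rw [zero_mul] at h2
    exact hQ0 h2.symm
  have hβ0 : β ≠ 0 := by
    intro h
    rw [h, mul_zero] at h2
    exact hQ0 h2.symm
  by_cases hab : α = β
  · refine ⟨p, Or.inr (Or.inl dvd_rfl), fun n => ?_⟩
    rw [← hab] at h1 h2
    rcases Nat.eq_zero_or_pos n with h0 | h0
    · rw [h0]
      simp [U]
    · obtain ⟨v, rfl⟩ : ∃ v, n = v + 1 := ⟨n - 1, by omega⟩
      rw [hdvd, binet' P Q α h1 h2 v, ← CharP.cast_eq_zero_iff F p (v + 1)]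
      push_cast
      constructor
      · intro h
        exact (mul_eq_zero.1 h).resolve_right (pow_ne_zero _ hα0)
      · intro h
        rw [h, zero_mul]
  · have hsub : α - β ≠ 0 := sub_ne_zero.2 hab
    obtain ⟨γ, hγ⟩ : ∃ γ : F, γ = α / β := ⟨_, rfl⟩
    have key : ∀ n : ℕ, (p : ℤ) ∣ U P Q n ↔ γ ^ n = 1 := by
      intro n
      rw [hdvd, hγ, div_pow, div_eq_one_iff_eq (pow_ne_zero _ hβ0)]
      have hb := binet P Q α β h1 h2 n
      constructor
      · intro h
        rw [h, zero_mul] at hb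
        exact sub_eq_zero.1 hb.symm
      · intro h
        rw [h, sub_self] at hb
        exact (mul_eq_zero.1 hb).resolve_right hsub
    refine ⟨orderOf γ, ?_, fun n => (key n).trans orderOf_dvd_iff_pow_eq_one.symm⟩
    have hαp : (α ^ p - α) * (α ^ p - β) = 0 := by
      have h3 : (α ^ p) ^ 2 - P * α ^ p + Q = 0 := by
        have h4 : (α ^ 2 - P * α + Q) ^ p = 0 := by rw [hα, zero_pow hp.ne_zero]
        rw [add_pow_char, sub_pow_char, mul_pow, hfro, hfro] at h4
        rw [← h4]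
        ring
      rw [hβ]
      linear_combination h3 - hα
    have hβp : β ^ p = P - α ^ p := by rw [hβ, sub_pow_char, hfro]
    have hγ0 : γ ≠ 0 := by rw [hγ]; exact div_ne_zero hα0 hβ0
    rcases mul_eq_zero.1 hαp with h | h
    · left
      have h3 : α ^ p = α := sub_eq_zero.1 h
      have h4 : β ^ p = β := by rw [hβp, h3, hβ]
      have h5 : γ ^ p = γ := by rw [hγ, div_pow, h3, h4]
      apply orderOf_dvd_of_pow_eq_one
      have h6 : γ ^ (p - 1) * γ = γ := by
        rw [← pow_succ, Nat.sub_add_cancel hp.one_le, h5]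
      exact (mul_eq_right₀ hγ0).1 h6
    · right; right
      have h3 : α ^ p = β := sub_eq_zero.1 h
      have h4 : β ^ p = α := by rw [hβp, h3, ← h1]; ring
      apply orderOf_dvd_of_pow_eq_one
      rw [pow_succ, hγ, div_pow, h3, h4, div_mul_div_comm, mul_comm β α]
      exact div_self (mul_ne_zero hα0 hβ0)

/-- **The rank of apparition divides `p - 1`, `p` or `p + 1`.** -/
theorem rank_dvd {p : ℕ} (hp : p.Prime) {P Q : ℤ} (hQ : ¬ (p : ℤ) ∣ Q) {w : ℕ} (hw : IsRank p P Q w) :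
    w ∣ p - 1 ∨ w ∣ p ∨ w ∣ p + 1 := by
  obtain ⟨z, hz, h⟩ := rank_struct hp (P := P) hQ
  obtain ⟨hw1, hwp, hmin⟩ := hw
  have h3 : z ∣ w := (h w).1 hwp
  have h4 : 1 ≤ z := Nat.pos_of_dvd_of_pos h3 hw1
  have h5 : w = z := by
    refine le_antisymm ?_ (Nat.le_of_dvd hw1 h3)
    by_contra hcon
    exact hmin _ h4 (not_le.1 hcon) ((h z).2 dvd_rfl)
  rwa [h5]

/-- the size of the terms -/
lemma natAbs_U_le (P Q : ℤ) (n : ℕ) : (U P Q n).natAbs ≤ (P.natAbs + Q.natAbs + 1) ^ n := by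
  induction n using Nat.twoStepInduction with
  | zero => simp [U]
  | one => simp [U]
  | more n ih1 ih2 =>
    rw [U_succ_succ]
    have h1 := Int.natAbs_sub_le (P * U P Q (n + 1)) (Q * U P Q n)
    rw [Int.natAbs_mul, Int.natAbs_mul] at h1
    obtain ⟨S, hS⟩ : ∃ S, S = P.natAbs + Q.natAbs + 1 := ⟨_, rfl⟩
    rw [← hS] at ih1 ih2 ⊢
    have hS1 : 1 ≤ S := by omega
    have h3 : S ^ n ≤ S ^ (n + 1) := Nat.pow_le_pow_right hS1 (Nat.le_succ n)
    calc _ ≤ P.natAbs * (U P Q (n + 1)).natAbs + Q.natAbs * (U P Q n).natAbs := h1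
      _ ≤ P.natAbs * S ^ (n + 1) + Q.natAbs * S ^ (n + 1) := by
          apply Nat.add_le_add (Nat.mul_le_mul_left _ ih2) (Nat.mul_le_mul_left _ (ih1.trans h3))
      _ = (P.natAbs + Q.natAbs) * S ^ (n + 1) := by ring
      _ ≤ S * S ^ (n + 1) := Nat.mul_le_mul_right _ (by omega)
      _ = S ^ (n + 2) := by ring

/-- if `Q = 0` then no prime which does not divide `P` has a rank of apparition -/
lemma U_zero (P : ℤ) (n : ℕ) : U P 0 (n + 1) = P ^ n := by
  induction n using Nat.twoStepInduction with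
  | zero => simp [U]
  | one => simp [U]
  | more n ih1 ih2 =>
    rw [U_succ_succ, ih2]
    ring

end Pool.Agent.Zk8.LR
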