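import Mathlib
import Pool.Agent.Zk8.LR.A

set_option autoImplicit false

/-! Ranks of apparition: examples (helper8). -/

namespace Pool.Agent.Zk8.LR

/-- the Lucas sequence with `P = a + b`, `Q = a b` -/
lemma U_add_mul (a b : ℤ) (n : ℕ) : U (a + b) (a * b) n * (a - b) = a ^ n - b ^ n := by
  induction n using Nat.twoStepInduction with
  | zero => simp [U]
  | one => simp [U]
  | more n ih1 ih2 =>
    rw [U_succ_succ]
    have : ((a + b) * U (a + b) (a * b) (n + 1) - a * b * U (a + b) (a * b) n) * (a - b) =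
      (a + b) * (U (a + b) (a * b) (n + 1) * (a - b)) - a * b * (U (a + b) (a * b) n * (a - b)) := by ring
    rw [this, ih1, ih2]
    ring

lemma nondeg_add_mul {a b : ℤ} (h : |a| ≠ |b|) : Nondeg (a + b) (a * b) := by
  intro n hn h0
  have h1 := U_add_mul a b n
  rw [h0, zero_mul] at h1
  have h2 : |a| ^ n = |b| ^ n := by
    rw [← abs_pow, ← abs_pow, show a ^ n = b ^ n by linarith]
  exact h ((pow_left_inj₀ (abs_nonneg _) (abs_nonneg _) (by omega)).1 h2)

/-- the Fibonacci numbers -/
lemma U_fib (n : ℕ) : U 1 (-1) n = Nat.fib n := by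
  induction n using Nat.twoStepInduction with
  | zero => simp [U]
  | one => simp [U]
  | more n ih1 ih2 =>
    rw [U_succ_succ, ih1, ih2, Nat.fib_add_two]
    push_cast
    ring

lemma nondeg_fib : Nondeg 1 (-1) := by
  intro n hn h0
  rw [U_fib] at h0
  have := Nat.fib_pos.2 hn
  have h1 : Nat.fib n = 0 := by exact_mod_cast h0
  omega

end Pool.Agent.Zk8.LR
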