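import Mathlib
import Pool.Agent.Zk8.LR.A
import Pool.Agent.Zk73.OR.F

set_option autoImplicit false

/-! Ranks of apparition of almost all primes avoid sparse sets (helper8, on top of the tool of helper73). -/

namespace Pool.Agent.Zk8.LR

open Finset Classical
open Pool.Agent.Zk73.OR (card_pf divisors_out log_small)

/-- few primes divide a term of small index of a Lucas sequence with small parameters -/
lemma small_ranks {A K : ℕ} (F : Finset ℕ)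
    (hF : ∀ p ∈ F, p.Prime ∧ ∃ P Q : ℤ, |P| ≤ A ∧ |Q| ≤ A ∧ Nondeg P Q ∧ ∃ k : ℕ, 1 ≤ k ∧ k ≤ K ∧
      (p : ℤ) ∣ U P Q k) :
    F.card ≤ (2 * A + 1) * (2 * A + 1) * (K * (K * (Nat.log 2 (2 * A + 1) + 1))) := by
  have hsub : F ⊆ (((Icc (-(A : ℤ)) A) ×ˢ (Icc (-(A : ℤ)) A)).filter (fun x => Nondeg x.1 x.2)).biUnion
      (fun x => (Icc 1 K).biUnion (fun k => (U x.1 x.2 k).natAbs.primeFactors)) := by
    intro p hp
    obtain ⟨h1, P, Q, h2, h3, h4, k, h5, h6, h7⟩ := hF p hp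
    rw [mem_biUnion]
    refine ⟨(P, Q), ?_, ?_⟩
    · rw [mem_filter, mem_product, mem_Icc, mem_Icc]
      exact ⟨⟨abs_le.1 h2, abs_le.1 h3⟩, h4⟩
    · rw [mem_biUnion]
      refine ⟨k, by rw [mem_Icc]; exact ⟨h5, h6⟩, ?_⟩
      rw [Nat.mem_primeFactors]
      refine ⟨h1, Int.natCast_dvd.1 h7, ?_⟩
      rw [Int.natAbs_ne_zero]
      exact h4 k h5
  refine (card_le_card hsub).trans (card_biUnion_le.trans ?_)
  have h1 : ∀ x ∈ ((Icc (-(A : ℤ)) A) ×ˢ (Icc (-(A : ℤ)) A)).filter (fun x => Nondeg x.1 x.2),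
      ((Icc 1 K).biUnion (fun k => (U x.1 x.2 k).natAbs.primeFactors)).card ≤
        K * (K * (Nat.log 2 (2 * A + 1) + 1)) := by
    intro x hx
    rw [mem_filter, mem_product, mem_Icc, mem_Icc] at hx
    obtain ⟨⟨hx1, hx2⟩, hx3⟩ := hx
    refine card_biUnion_le.trans ?_
    have h2 : ∀ k ∈ Icc 1 K, ((U x.1 x.2 k).natAbs.primeFactors).card ≤ K * (Nat.log 2 (2 * A + 1) + 1) := by
      intro k hk
      rw [mem_Icc] at hk
      refine (card_pf (Int.natAbs_ne_zero.2 (hx3 k hk.1))).trans ?_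
      have hA : 2 * A + 1 < 2 ^ (Nat.log 2 (2 * A + 1) + 1) := Nat.lt_pow_succ_log_self (by norm_num) _
      have haA : ∀ a : ℤ, -(A : ℤ) ≤ a ∧ a ≤ A → a.natAbs ≤ A := by
        intro a ha
        omega
      have h3 : (U x.1 x.2 k).natAbs ≤ 2 ^ (k * (Nat.log 2 (2 * A + 1) + 1)) := by
        refine (natAbs_U_le _ _ _).trans ?_
        have e1 : x.1.natAbs + x.2.natAbs + 1 ≤ 2 ^ (Nat.log 2 (2 * A + 1) + 1) := by
          have := haA x.1 hx1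
          have := haA x.2 hx2
          omega
        have e2 := Nat.pow_le_pow_left e1 k
        rwa [← pow_mul, mul_comm _ k] at e2
      have h4 := Nat.log_mono_right (b := 2) h3
      rw [Nat.log_pow (by norm_num)] at h4
      exact h4.trans (Nat.mul_le_mul_right _ hk.2)
    refine (sum_le_sum h2).trans ?_
    rw [sum_const, Nat.card_Icc, Nat.add_sub_cancel, smul_eq_mul]
  refine (sum_le_sum h1).trans ?_
  rw [sum_const, smul_eq_mul]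
  apply Nat.mul_le_mul_right
  refine (card_filter_le _ _).trans ?_
  rw [card_product, Int.card_Icc]
  have : ((A : ℤ) + 1 - -(A : ℤ)).toNat = 2 * A + 1 := by omega
  rw [this]

lemma rank_pos_dvd {p : ℕ} (hp : p.Prime) {c : ℝ} (hc : c < 1) {P Q : ℤ} (hP : (|P| : ℝ) ≤ (p : ℝ) ^ c)
    (hQ : (|Q| : ℝ) ≤ (p : ℝ) ^ c) (hnd : Nondeg P Q) {w : ℕ} (hw : IsRank p P Q w) :
    w ∣ p - 1 ∨ w ∣ p ∨ w ∣ p + 1 := by
  have hsmall : ∀ a : ℤ, (|a| : ℝ) ≤ (p : ℝ) ^ c → (p : ℤ) ∣ a → a = 0 := by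
    intro a ha hd
    by_contra ha0
    have h1 := Int.le_of_dvd (abs_pos.2 ha0) ((dvd_abs _ _).2 hd)
    have h2 : (p : ℝ) ≤ (|a| : ℝ) := by exact_mod_cast h1
    have h3 : (p : ℝ) ^ c < (p : ℝ) ^ (1 : ℝ) :=
      Real.rpow_lt_rpow_of_exponent_lt (by exact_mod_cast hp.one_lt) hc
    rw [Real.rpow_one] at h3
    linarith
  apply rank_dvd hp _ hw
  intro hd
  have hQ0 := hsmall Q hQ hd
  subst hQ0
  obtain ⟨v, rfl⟩ : ∃ v, w = v + 1 := ⟨w - 1, by have := hw.1; omega⟩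
  have h1 := hw.2.1
  rw [U_zero] at h1
  have h2 : (p : ℤ) ∣ P := (Nat.prime_iff_prime_int.1 hp).dvd_of_dvd_pow h1
  have h3 := hsmall P hP h2
  exact hnd 2 (by norm_num) (by rw [U_zero, h3]; norm_num)

theorem OnRanks.mono {c : ℝ} {R R' : ℕ → Prop} (h : OnRanks c R) (hR : ∀ w : ℕ, 1 ≤ w → R w → R' w) :
    OnRanks c R' := by
  obtain ⟨C, η, hη, h⟩ := h
  refine ⟨C, η, hη, fun N hN => le_trans ?_ (h N hN)⟩
  have hfin : {p : ℕ | p.Prime ∧ p ≤ N ∧ ¬ ∀ P Q : ℤ, (|P| : ℝ) ≤ (p : ℝ) ^ c → (|Q| : ℝ) ≤ (p : ℝ) ^ c →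
      Nondeg P Q → ∀ w : ℕ, IsRank p P Q w → R w}.Finite :=
    (Set.finite_Icc 0 N).subset (fun m hm => ⟨Nat.zero_le _, hm.2.1⟩)
  apply Nat.cast_le.2
  apply Set.ncard_le_ncard _ hfin
  rintro p ⟨h1, h2, h3⟩
  exact ⟨h1, h2, fun h4 => h3 fun P Q hP hQ hn w hw => hR w hw.1 (h4 P Q hP hQ hn w hw)⟩

/-- **Ranks of apparition avoid sparse sets.** -/
theorem ranks_out {θ c : ℝ} (hθ0 : 0 ≤ θ) (hθ1 : θ < 1) (hc0 : 0 ≤ c) (hc : c < 1 / 2) (C₀ : ℝ) (W : Set ℕ)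
    (hW : ∀ X : ℕ, 1 ≤ X → (((Icc 1 X).filter (fun w => w ∈ W)).card : ℝ) ≤ C₀ * (X : ℝ) ^ θ) :
    OnRanks c (fun w => w ∉ W) := by
  obtain ⟨δ, hδ⟩ : ∃ δ : ℝ, δ = (1 - 2 * c) / 4 := ⟨_, rfl⟩
  have hδ0 : 0 < δ := by rw [hδ]; linarith
  obtain ⟨C₁, η₁, hη₁, h1⟩ := divisors_out (δ := δ) (κ := 0) hθ0 hθ1 hδ0 (by rw [hδ]; linarith) le_rfl
    (by have : 0 < 1 - θ := by linarith
        positivity) C₀ W hW
  obtain ⟨CL, hCL0, hCL⟩ := log_small hδ0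
  refine ⟨|C₁| + 27 * CL, min η₁ δ, lt_min hη₁ hδ0, fun N hN => ?_⟩
  have hN1 : (1 : ℝ) ≤ N := by exact_mod_cast hN
  have hN0 : (0 : ℝ) < N := by linarith
  obtain ⟨A, hA⟩ : ∃ A : ℕ, A = ⌊(N : ℝ) ^ c⌋₊ := ⟨_, rfl⟩
  obtain ⟨K, hK⟩ : ∃ K : ℕ, K = ⌊(N : ℝ) ^ δ⌋₊ := ⟨_, rfl⟩
  have hNc : 1 ≤ (N : ℝ) ^ c := Real.one_le_rpow hN1 hc0
  have hNδ : 1 ≤ (N : ℝ) ^ δ := Real.one_le_rpow hN1 hδ0.le
  have hAle : (A : ℝ) ≤ (N : ℝ) ^ c := by rw [hA]; exact Nat.floor_le (by linarith)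
  have hKle : (K : ℝ) ≤ (N : ℝ) ^ δ := by rw [hK]; exact Nat.floor_le (by linarith)
  obtain ⟨F, hF⟩ : ∃ F : Finset ℕ, F = (Icc (1 : ℕ) N).filter (fun p : ℕ => p.Prime ∧ ∃ P Q : ℤ, |P| ≤ (A : ℤ) ∧
    |Q| ≤ (A : ℤ) ∧ Nondeg P Q ∧ ∃ k : ℕ, 1 ≤ k ∧ k ≤ K ∧ (p : ℤ) ∣ U P Q k) := ⟨_, rfl⟩
  have hFc := small_ranks F (fun p hp => by
    rw [hF, mem_filter] at hp
    exact hp.2)
  have hfin1 : {m : ℕ | 1 ≤ m ∧ m ≤ N ∧ ¬ ∀ n w : ℕ, 1 ≤ n → |(n : ℝ) - m| ≤ (m : ℝ) ^ (0 : ℝ) → (m : ℝ) ^ δ ≤ w →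
      w ∣ n → w ∉ W}.Finite := (Set.finite_Icc 1 N).subset (fun m hm => ⟨hm.1, hm.2.1⟩)
  have hcov : {p : ℕ | p.Prime ∧ p ≤ N ∧ ¬ ∀ P Q : ℤ, (|P| : ℝ) ≤ (p : ℝ) ^ c → (|Q| : ℝ) ≤ (p : ℝ) ^ c →
      Nondeg P Q → ∀ w : ℕ, IsRank p P Q w → w ∉ W} ⊆ {m : ℕ | 1 ≤ m ∧ m ≤ N ∧ ¬ ∀ n w : ℕ, 1 ≤ n →
      |(n : ℝ) - m| ≤ (m : ℝ) ^ (0 : ℝ) → (m : ℝ) ^ δ ≤ w → w ∣ n → w ∉ W} ∪ (F : Set ℕ) := by
    rintro p ⟨h1, h2, h3⟩
    push Not at h3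
    obtain ⟨P, Q, hP, hQ, hnd, w, hw, haW⟩ := h3
    have hd := rank_pos_dvd h1 (by linarith) hP hQ hnd hw
    have hpN : (p : ℝ) ≤ N := by exact_mod_cast h2
    by_cases hcase : (p : ℝ) ^ δ ≤ (w : ℝ)
    · left
      refine ⟨h1.pos, h2, fun h => ?_⟩
      rcases hd with hd | hd | hd
      · refine h (p - 1) w (by have := h1.two_le; omega) ?_ hcase hd haW
        rw [Nat.cast_sub h1.one_le, Real.rpow_zero]
        simp
      · refine h p w h1.one_le ?_ hcase hd haW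
        rw [Real.rpow_zero]
        simp
      · refine h (p + 1) w (by omega) ?_ hcase hd haW
        rw [Real.rpow_zero]
        push_cast
        simp
    · right
      have hint : ∀ a : ℤ, (|a| : ℝ) ≤ (p : ℝ) ^ c → |a| ≤ (A : ℤ) := by
        intro a hac
        have e1 : ((a.natAbs : ℕ) : ℝ) ≤ (N : ℝ) ^ c := by
          have : ((a.natAbs : ℕ) : ℝ) = (|a| : ℝ) := by
            rw [Nat.cast_natAbs, Int.cast_abs]
          rw [this]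
          exact hac.trans (Real.rpow_le_rpow (Nat.cast_nonneg _) hpN hc0)
        have e2 : a.natAbs ≤ A := by
          rw [hA]
          exact Nat.le_floor e1
        rw [Int.abs_eq_natAbs]
        exact_mod_cast e2
      rw [mem_coe, hF, mem_filter, mem_Icc]
      refine ⟨⟨h1.pos, h2⟩, h1, P, Q, hint P hP, hint Q hQ, hnd, w, hw.1, ?_, hw.2.1⟩
      rw [hK]
      apply Nat.le_floor
      exact (not_le.1 hcase).le.trans (Real.rpow_le_rpow (Nat.cast_nonneg _) hpN hδ0.le)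
  have h2 : (({p : ℕ | p.Prime ∧ p ≤ N ∧ ¬ ∀ P Q : ℤ, (|P| : ℝ) ≤ (p : ℝ) ^ c → (|Q| : ℝ) ≤ (p : ℝ) ^ c →
      Nondeg P Q → ∀ w : ℕ, IsRank p P Q w → w ∉ W}.ncard : ℕ) : ℝ) ≤
      ({m : ℕ | 1 ≤ m ∧ m ≤ N ∧ ¬ ∀ n w : ℕ, 1 ≤ n → |(n : ℝ) - m| ≤ (m : ℝ) ^ (0 : ℝ) →
        (m : ℝ) ^ δ ≤ w → w ∣ n → w ∉ W}.ncard : ℝ) + (F.card : ℝ) := by
    have h3 := Set.ncard_le_ncard hcov (hfin1.union (finite_toSet _))
    have h4 := h3.trans (Set.ncard_union_le _ _)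
    rw [Set.ncard_coe_finset] at h4
    exact_mod_cast h4
  have h3 : (F.card : ℝ) ≤ 27 * CL * (N : ℝ) ^ (1 - δ) := by
    have hA3 : (2 * (A : ℝ) + 1) ≤ 3 * (N : ℝ) ^ c := by linarith
    have hAN : (A : ℝ) ≤ N := by
      calc (A : ℝ) ≤ (N : ℝ) ^ c := hAle
        _ ≤ (N : ℝ) ^ (1 : ℝ) := Real.rpow_le_rpow_of_exponent_le hN1 (by linarith)
        _ = N := Real.rpow_one _
    have e0 : Nat.log 2 (2 * A + 1) + 1 ≤ 3 * (Nat.log 2 N + 1) := by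
      have hAN' : A ≤ N := by exact_mod_cast hAN
      have a1 : 2 * A + 1 ≤ 2 ^ 2 * N := by omega
      have a2 : Nat.log 2 (2 * A + 1) ≤ Nat.log 2 (N * 2 ^ 2) := Nat.log_mono_right (by omega)
      have a3 : Nat.log 2 (N * 2 ^ 2) = Nat.log 2 N + 2 := by
        rw [show N * 2 ^ 2 = N * 2 * 2 by ring, Nat.log_mul_base (by norm_num) (by omega),
          Nat.log_mul_base (by norm_num) (by omega)]
      omega
    have e1 : (F.card : ℝ) ≤ (2 * A + 1) * (2 * A + 1) * (K * (K * (3 * (Nat.log 2 N + 1)))) := by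
      have e2 : F.card ≤ (2 * A + 1) * (2 * A + 1) * (K * (K * (3 * (Nat.log 2 N + 1)))) := by
        refine hFc.trans ?_
        gcongr
      exact_mod_cast e2
    have e3 := hCL N hN
    have e5 : (K : ℝ) * (K * (3 * (Nat.log 2 N + 1))) ≤ (N : ℝ) ^ δ * ((N : ℝ) ^ δ * (3 * (CL * (N : ℝ) ^ δ))) := by
      gcongr
    calc (F.card : ℝ) ≤ (2 * A + 1) * (2 * A + 1) * (K * (K * (3 * (Nat.log 2 N + 1)))) := e1
      _ ≤ (3 * (N : ℝ) ^ c) * (3 * (N : ℝ) ^ c) * ((N : ℝ) ^ δ * ((N : ℝ) ^ δ * (3 * (CL * (N : ℝ) ^ δ)))) := by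
          apply mul_le_mul _ e5 (by positivity) (by positivity)
          exact mul_le_mul hA3 hA3 (by positivity) (by positivity)
      _ = 27 * CL * ((N : ℝ) ^ c * (N : ℝ) ^ c * (N : ℝ) ^ δ * (N : ℝ) ^ δ * (N : ℝ) ^ δ) := by ring
      _ = 27 * CL * (N : ℝ) ^ (1 - δ) := by
          rw [← Real.rpow_add hN0, ← Real.rpow_add hN0, ← Real.rpow_add hN0, ← Real.rpow_add hN0]
          congr 2
          rw [hδ]
          ring
  have h4 := h1 N hN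
  have e1 : (N : ℝ) ^ (1 - η₁) ≤ (N : ℝ) ^ (1 - min η₁ δ) :=
    Real.rpow_le_rpow_of_exponent_le hN1 (by linarith [min_le_left η₁ δ])
  have e2 : (N : ℝ) ^ (1 - δ) ≤ (N : ℝ) ^ (1 - min η₁ δ) :=
    Real.rpow_le_rpow_of_exponent_le hN1 (by linarith [min_le_right η₁ δ])
  have e3 : C₁ * (N : ℝ) ^ (1 - η₁) ≤ |C₁| * (N : ℝ) ^ (1 - min η₁ δ) :=
    (mul_le_mul_of_nonneg_right (le_abs_self _) (by positivity)).trans
      (mul_le_mul_of_nonneg_left e1 (abs_nonneg _))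
  have e4 : 27 * CL * (N : ℝ) ^ (1 - δ) ≤ 27 * CL * (N : ℝ) ^ (1 - min η₁ δ) :=
    mul_le_mul_of_nonneg_left e2 (by positivity)
  calc _ ≤ _ := h2
    _ ≤ |C₁| * (N : ℝ) ^ (1 - min η₁ δ) + 27 * CL * (N : ℝ) ^ (1 - min η₁ δ) := by linarith
    _ = _ := by ring

end Pool.Agent.Zk8.LR
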