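import Mathlib
import Pool.Agent.Zk8.LR.B

set_option autoImplicit false

/-! Ranks of apparition of almost all primes: forms for applications (helper8, after `Pool/Agent/Zk73/OR/F` of helper73). -/

namespace Pool.Agent.Zk8.LR

open Finset Classical
open Pool.Agent.N733.TG (Expanding NearG nearG_count)
open Pool.Agent.Zk73.OR (fin_aux)

/-- sets with `O_ε (X ^ (θ + ε))` elements -/
theorem keep_out {θ : ℝ} (hθ : 0 ≤ θ) (W : Set ℕ)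
    (hW : ∀ ε : ℝ, 0 < ε → ∃ C : ℝ, ∀ X : ℕ, 1 ≤ X → (((Icc 1 X).filter (fun w => w ∈ W)).card : ℝ) ≤
      C * (X : ℝ) ^ (θ + ε)) (h1 : θ < 1) (c : ℝ) (hc0 : 0 ≤ c) (hc : c < 1 / 2) : OnRanks c (fun w => w ∉ W) := by
  obtain ⟨C, hC⟩ := hW ((1 - θ) / 2) (by linarith)
  exact ranks_out (θ := θ + (1 - θ) / 2) (by linarith) (by linarith) hc0 hc C W hC

/-- **Main tool.** If `S` has `O_ε (X ^ (s + ε))` elements of height at most `X`, and `G` is expanding of growth `d`. -/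
theorem keep_windows {T : Type*} (S : Set T) (h : T → ℝ) {G : ℕ → ℝ} {d : ℝ}
    (hG : Expanding G d) {s κ : ℝ} (hs : 0 ≤ s) (hκ : 0 ≤ κ) (hκ1 : κ ≤ 1)
    (hS : ∀ ε : ℝ, 0 < ε → ∃ C : ℝ, ∀ X : ℝ, 1 ≤ X →
      {t | t ∈ S ∧ h t ≤ X}.Finite ∧ ({t | t ∈ S ∧ h t ≤ X}.ncard : ℝ) ≤ C * X ^ (s + ε))
    (h1 : d * s + κ < 1) (c : ℝ) (hc0 : 0 ≤ c) (hc : c < 1 / 2) :
    OnRanks c (fun w => ∀ t ∈ S, ¬ |h t - G w| ≤ (w : ℝ) ^ κ) := by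
  have hd := hG.one_le
  refine (keep_out (θ := d * s + κ) (by positivity) (NearG S h G κ) ?_ h1 c hc0 hc).mono ?_
  · intro ε hε
    obtain ⟨K, hK⟩ := nearG_count S h hG (s := s + ε / d) (κ := κ) (by positivity) hκ hκ1 (hS (ε / d) (by positivity))
    refine ⟨K, fun X hX => (hK X hX).trans (le_of_eq ?_)⟩
    congr 2
    field_simp
    ring
  · intro w _ hw t ht hn
    exact hw ⟨t, ht, hn⟩

/-- the same for a property of natural numbers -/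
theorem keep_good_nat (Good : ℕ → Prop) {G : ℕ → ℝ} {d : ℝ}
    (hG : Expanding G d) {s κ : ℝ} (hs : 0 ≤ s) (hκ : 0 ≤ κ) (hκ1 : κ ≤ 1)
    (hP : ∀ ε : ℝ, 0 < ε → ∃ C : ℝ, ∀ X : ℕ, 1 ≤ X →
      ({t : ℕ | 1 ≤ t ∧ t ≤ X ∧ ¬ Good t}.ncard : ℝ) ≤ C * (X : ℝ) ^ (s + ε))
    (h1 : d * s + κ < 1) (c : ℝ) (hc0 : 0 ≤ c) (hc : c < 1 / 2) :
    OnRanks c (fun w => ∀ n : ℕ, 1 ≤ n → |(n : ℝ) - G w| ≤ (w : ℝ) ^ κ → Good n) := by
  have h := keep_windows (T := ℕ) {t | 1 ≤ t ∧ ¬ Good t} (fun t : ℕ => (t : ℝ)) hG hs hκ hκ1 (by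
    intro ε hε
    obtain ⟨C, hC⟩ := hP ε hε
    refine ⟨|C|, fun X hX => ?_⟩
    have hX1 : 1 ≤ ⌊X⌋₊ := Nat.le_floor (by exact_mod_cast hX)
    have heq : {t : ℕ | t ∈ {t : ℕ | 1 ≤ t ∧ ¬ Good t} ∧ (t : ℝ) ≤ X} =
        {t : ℕ | 1 ≤ t ∧ t ≤ ⌊X⌋₊ ∧ ¬ Good t} := by
      ext t
      simp only [Set.mem_ofPred_eq]
      constructor
      · rintro ⟨⟨a1, a3⟩, a4⟩
        exact ⟨a1, Nat.le_floor a4, a3⟩
      · rintro ⟨a1, a2, a3⟩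
        exact ⟨⟨a1, a3⟩, (Nat.cast_le.2 a2).trans (Nat.floor_le (by linarith))⟩
    rw [heq]
    refine ⟨fin_aux _ _, (hC _ hX1).trans ?_⟩
    have h6 : ((⌊X⌋₊ : ℕ) : ℝ) ^ (s + ε) ≤ X ^ (s + ε) :=
      Real.rpow_le_rpow (Nat.cast_nonneg _) (Nat.floor_le (by linarith)) (by linarith)
    exact (mul_le_mul_of_nonneg_right (le_abs_self _) (by positivity)).trans
      (mul_le_mul_of_nonneg_left h6 (abs_nonneg _))) h1 c hc0 hc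
  refine h.mono fun w _ hw n hn hnear => ?_
  by_contra hg
  exact hw n ⟨hn, hg⟩ hnear

end Pool.Agent.Zk8.LR
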