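import Mathlib
import Pool.Agent.N790.CM.B
import Pool.Agent.Zk73.OR.C
import Pool.Agent.Zk8.LR.Defs

set_option autoImplicit false

/-! Numbers `w` which share large divisors with `p - 1`, `p` or `p + 1` for the prime factors `p` of `m` (helper8, after the
file `Zk73/OR/C` of helper73): few `m` for a given `w`. -/

namespace Pool.Agent.Zk8.LR

open Finset Classical
open Pool.Agent.N733.TG
open Pool.Agent.Zk73.OR (subsets_sum primes_sum)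

/-- the weighted number of the primes `p` such that `p + 1` shares a large divisor with `w` -/
lemma primes_sum_succ {l : ℝ} {N w : ℕ} (hN : 1 ≤ N) (hw : 1 ≤ w) (D : Finset ℕ)
    (hD : ∀ p ∈ D, p.Prime ∧ p ≤ N ∧ (p : ℝ) ^ (1 - l) ≤ (Nat.gcd w (p + 1) : ℝ)) :
    ∑ p ∈ D, (p : ℝ) ^ (-l) ≤ 4 * (w.divisors.card * (1 + Real.log N)) := by
  have h1 : ∀ p ∈ D, (p : ℝ) ^ (-l) ≤ 2 * ((1 : ℝ) / (((p + 1) / Nat.gcd w (p + 1) : ℕ) : ℝ)) := by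
    intro p hp
    obtain ⟨hpp, _, hpg⟩ := hD p hp
    have hp0 : (0 : ℝ) < p := by exact_mod_cast hpp.pos
    have hp1 : (1 : ℝ) ≤ p := by exact_mod_cast hpp.one_le
    have hg : 0 < Nat.gcd w (p + 1) := Nat.gcd_pos_of_pos_left _ hw
    have hd : Nat.gcd w (p + 1) ∣ p + 1 := Nat.gcd_dvd_right _ _
    have hk : 0 < (p + 1) / Nat.gcd w (p + 1) := Nat.div_pos (Nat.le_of_dvd (by omega) hd) hg
    have hk0 : (0 : ℝ) < (((p + 1) / Nat.gcd w (p + 1) : ℕ) : ℝ) := by exact_mod_cast hk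
    have h3 : ((((p + 1) / Nat.gcd w (p + 1) : ℕ) : ℝ)) * (Nat.gcd w (p + 1) : ℝ) ≤ p + 1 := by
      have : (p + 1) / Nat.gcd w (p + 1) * Nat.gcd w (p + 1) ≤ p + 1 := Nat.div_mul_le_self _ _
      exact_mod_cast this
    have h4 : (p : ℝ) = (p : ℝ) ^ l * (p : ℝ) ^ (1 - l) := by
      rw [← Real.rpow_add hp0]
      simp
    have h5 : 0 < (p : ℝ) ^ (1 - l) := Real.rpow_pos_of_pos hp0 _
    have h5' : 0 < (p : ℝ) ^ l := Real.rpow_pos_of_pos hp0 _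
    have h6 : ((((p + 1) / Nat.gcd w (p + 1) : ℕ) : ℝ)) * (p : ℝ) ^ (1 - l) ≤ (2 * (p : ℝ) ^ l) * (p : ℝ) ^ (1 - l) := by
      rw [mul_assoc, ← h4]
      exact ((mul_le_mul_of_nonneg_left hpg hk0.le).trans h3).trans (by linarith)
    have h7 : ((((p + 1) / Nat.gcd w (p + 1) : ℕ) : ℝ)) ≤ 2 * (p : ℝ) ^ l := le_of_mul_le_mul_right h6 h5
    rw [Real.rpow_neg hp0.le, ← one_div, mul_one_div]
    rw [div_le_div_iff₀ h5' hk0]
    linarith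
  have h2 : ∑ p ∈ D, (1 : ℝ) / (((p + 1) / Nat.gcd w (p + 1) : ℕ) : ℝ) ≤
      ∑ x ∈ w.divisors ×ˢ Icc 1 (N + 1), (1 : ℝ) / (x.2 : ℝ) := by
    have hinj : Set.InjOn (fun p : ℕ => (Nat.gcd w (p + 1), (p + 1) / Nat.gcd w (p + 1))) (D : Set ℕ) := by
      intro p hp p' hp' h
      simp only [Prod.mk.injEq] at h
      have a1 := Nat.mul_div_cancel' (Nat.gcd_dvd_right w (p + 1))
      have a2 := Nat.mul_div_cancel' (Nat.gcd_dvd_right w (p' + 1))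
      rw [h.2, h.1] at a1
      rw [a2] at a1
      omega
    rw [← sum_image (f := fun x : ℕ × ℕ => (1 : ℝ) / (x.2 : ℝ)) hinj]
    apply sum_le_sum_of_subset_of_nonneg
    · intro x hx
      rw [mem_image] at hx
      obtain ⟨p, hp, rfl⟩ := hx
      obtain ⟨hpp, hpN, _⟩ := hD p hp
      have hg : 0 < Nat.gcd w (p + 1) := Nat.gcd_pos_of_pos_left _ hw
      rw [mem_product, Nat.mem_divisors, mem_Icc]
      refine ⟨⟨Nat.gcd_dvd_left _ _, by omega⟩, Nat.div_pos (Nat.le_of_dvd (by omega) (Nat.gcd_dvd_right _ _)) hg, ?_⟩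
      exact (Nat.div_le_self _ _).trans (by omega)
    · intro x _ _
      positivity
  have h3 : ∑ x ∈ w.divisors ×ˢ Icc 1 (N + 1), (1 : ℝ) / (x.2 : ℝ) =
      w.divisors.card * ∑ k ∈ Icc 1 (N + 1), (1 : ℝ) / k := by
    rw [sum_product]
    change ∑ _x ∈ w.divisors, ∑ y ∈ Icc 1 (N + 1), (1 : ℝ) / (y : ℝ) = _
    rw [sum_const, nsmul_eq_mul]
  have h4 : ∑ k ∈ Icc 1 (N + 1), (1 : ℝ) / k ≤ 2 * (1 + Real.log N) := by
    have h5 := harmonic_le_one_add_log N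
    rw [harmonic_eq_sum_Icc] at h5
    push_cast at h5
    have h6 : ∑ k ∈ Icc 1 N, (1 : ℝ) / k ≤ 1 + Real.log N := by simpa [one_div] using h5
    have h7 : ∑ k ∈ Icc 1 (N + 1), (1 : ℝ) / k = ∑ k ∈ Icc 1 N, (1 : ℝ) / k + 1 / ((N + 1 : ℕ) : ℝ) := by
      rw [Finset.sum_Icc_succ_top (by omega)]
    have h8 : (1 : ℝ) / ((N + 1 : ℕ) : ℝ) ≤ 1 := by
      rw [div_le_one (by positivity)]
      push_cast
      linarith [(Nat.cast_nonneg N : (0 : ℝ) ≤ N)]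
    have h9 : 0 ≤ Real.log N := Real.log_nonneg (by exact_mod_cast hN)
    rw [h7]
    linarith
  calc ∑ p ∈ D, (p : ℝ) ^ (-l) ≤ ∑ p ∈ D, 2 * ((1 : ℝ) / (((p + 1) / Nat.gcd w (p + 1) : ℕ) : ℝ)) := sum_le_sum h1
    _ = 2 * ∑ p ∈ D, (1 : ℝ) / (((p + 1) / Nat.gcd w (p + 1) : ℕ) : ℝ) := by rw [mul_sum]
    _ ≤ 2 * (w.divisors.card * ∑ k ∈ Icc 1 (N + 1), (1 : ℝ) / k) := by
        rw [← h3]
        exact mul_le_mul_of_nonneg_left h2 (by norm_num)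
    _ ≤ 2 * (w.divisors.card * (2 * (1 + Real.log N))) := by
        apply mul_le_mul_of_nonneg_left _ (by norm_num)
        exact mul_le_mul_of_nonneg_left h4 (Nat.cast_nonneg _)
    _ = _ := by ring

/-- the weighted number of the primes which divide `w` or share a large divisor with `w` -/
lemma primes_sum3 {l : ℝ} (hl : 0 ≤ l) {N w : ℕ} (hN : 1 ≤ N) (hw : 1 ≤ w) (D : Finset ℕ)
    (hD : ∀ p ∈ D, p.Prime ∧ p ≤ N ∧ ((p : ℝ) ^ (1 - l) ≤ (Nat.gcd w (p - 1) : ℝ) ∨ p ∣ w ∨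
      (p : ℝ) ^ (1 - l) ≤ (Nat.gcd w (p + 1) : ℝ))) :
    ∑ p ∈ D, (p : ℝ) ^ (-l) ≤ w.divisors.card * (8 * (1 + Real.log N)) := by
  obtain ⟨D1, hD1⟩ : ∃ D1, D1 = D.filter (fun p : ℕ => (p : ℝ) ^ (1 - l) ≤ (Nat.gcd w (p - 1) : ℝ)) := ⟨_, rfl⟩
  obtain ⟨D2, hD2⟩ : ∃ D2, D2 = D.filter (fun p : ℕ => p ∣ w) := ⟨_, rfl⟩
  obtain ⟨D3, hD3⟩ : ∃ D3, D3 = D.filter (fun p : ℕ => (p : ℝ) ^ (1 - l) ≤ (Nat.gcd w (p + 1) : ℝ)) := ⟨_, rfl⟩
  have hsub : D ⊆ (D1 ∪ D2) ∪ D3 := by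
    intro p hp
    rw [mem_union, mem_union, hD1, hD2, hD3, mem_filter, mem_filter, mem_filter]
    rcases (hD p hp).2.2 with h | h | h
    · exact Or.inl (Or.inl ⟨hp, h⟩)
    · exact Or.inl (Or.inr ⟨hp, h⟩)
    · exact Or.inr ⟨hp, h⟩
  have hlog : 0 ≤ Real.log N := Real.log_nonneg (by exact_mod_cast hN)
  have hnn : ∀ p : ℕ, 0 ≤ (p : ℝ) ^ (-l) := fun p => by positivity
  have h1 := primes_sum (l := l) hN hw D1 (fun p hp => by
    rw [hD1, mem_filter] at hp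
    exact ⟨(hD p hp.1).1, (hD p hp.1).2.1, hp.2⟩)
  have h3 := primes_sum_succ (l := l) hN hw D3 (fun p hp => by
    rw [hD3, mem_filter] at hp
    exact ⟨(hD p hp.1).1, (hD p hp.1).2.1, hp.2⟩)
  have h2 : ∑ p ∈ D2, (p : ℝ) ^ (-l) ≤ w.divisors.card * (1 + Real.log N) := by
    have a1 : ∑ p ∈ D2, (p : ℝ) ^ (-l) ≤ ∑ p ∈ D2, (1 : ℝ) := by
      apply sum_le_sum
      intro p hp
      rw [hD2, mem_filter] at hp
      apply Real.rpow_le_one_of_one_le_of_nonpos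
      · exact_mod_cast (hD p hp.1).1.one_le
      · linarith
    have a2 : D2 ⊆ w.divisors := by
      intro p hp
      rw [hD2, mem_filter] at hp
      exact Nat.mem_divisors.2 ⟨hp.2, by omega⟩
    have a3 : (D2.card : ℝ) ≤ w.divisors.card := by exact_mod_cast card_le_card a2
    rw [sum_const, nsmul_eq_mul, mul_one] at a1
    have a4 : (w.divisors.card : ℝ) ≤ w.divisors.card * (1 + Real.log N) :=
      le_mul_of_one_le_right (Nat.cast_nonneg _) (by linarith)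
    linarith
  have h4 : ∑ p ∈ D, (p : ℝ) ^ (-l) ≤ ∑ p ∈ D1, (p : ℝ) ^ (-l) + ∑ p ∈ D2, (p : ℝ) ^ (-l) +
      ∑ p ∈ D3, (p : ℝ) ^ (-l) := by
    have a1 : ∑ p ∈ D, (p : ℝ) ^ (-l) ≤ ∑ p ∈ (D1 ∪ D2) ∪ D3, (p : ℝ) ^ (-l) :=
      sum_le_sum_of_subset_of_nonneg hsub fun p _ _ => hnn p
    have a2 : ∀ S T : Finset ℕ, ∑ p ∈ S ∪ T, (p : ℝ) ^ (-l) ≤ ∑ p ∈ S, (p : ℝ) ^ (-l) + ∑ p ∈ T, (p : ℝ) ^ (-l) := by
      intro S T
      rw [← sum_union_inter]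
      have : 0 ≤ ∑ p ∈ S ∩ T, (p : ℝ) ^ (-l) := sum_nonneg fun p _ => hnn p
      linarith
    have a3 := a2 (D1 ∪ D2) D3
    have a4 := a2 D1 D2
    linarith
  have h5 : 0 ≤ (w.divisors.card : ℝ) * (1 + Real.log N) := by positivity
  have e : (w.divisors.card : ℝ) * (8 * (1 + Real.log N)) = 8 * (w.divisors.card * (1 + Real.log N)) := by ring
  rw [e]
  linarith

/-- few squarefree `u` all whose prime factors divide `w` or share large divisors with `w` -/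
lemma fibre3 {l : ℝ} (hl : 0 ≤ l) {N J w : ℕ} (hN : 1 ≤ N) (hw : 1 ≤ w) (U : Finset ℕ)
    (h1 : ∀ u ∈ U, Squarefree u ∧ u ≤ N) (h3 : ∀ u ∈ U, u.primeFactors.card ≤ J)
    (h4 : ∀ u ∈ U, ∀ p ∈ u.primeFactors, ((p : ℝ) ^ (1 - l) ≤ (Nat.gcd w (p - 1) : ℝ) ∨ p ∣ w ∨
      (p : ℝ) ^ (1 - l) ≤ (Nat.gcd w (p + 1) : ℝ))) :
    (U.card : ℝ) ≤ (N : ℝ) ^ l * (1 + w.divisors.card * (8 * (1 + Real.log N))) ^ J := by
  obtain ⟨D, hD⟩ : ∃ D, D = U.biUnion Nat.primeFactors := ⟨_, rfl⟩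
  have hDm : ∀ p ∈ D, p.Prime ∧ p ≤ N ∧ ((p : ℝ) ^ (1 - l) ≤ (Nat.gcd w (p - 1) : ℝ) ∨ p ∣ w ∨
      (p : ℝ) ^ (1 - l) ≤ (Nat.gcd w (p + 1) : ℝ)) := by
    intro p hp
    rw [hD, mem_biUnion] at hp
    obtain ⟨u, hu, hpu⟩ := hp
    have hu0 : 0 < u := Nat.pos_of_ne_zero (h1 u hu).1.ne_zero
    exact ⟨Nat.prime_of_mem_primeFactors hpu, (Nat.le_of_dvd hu0 (Nat.dvd_of_mem_primeFactors hpu)).trans (h1 u hu).2,
      h4 u hu p hpu⟩
  have hN0 : (0 : ℝ) < N := by exact_mod_cast hN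
  have hinj : Set.InjOn (fun u : ℕ => u.primeFactors) (U : Set ℕ) := by
    intro u hu v hv huv
    rw [mem_coe] at hu hv
    simp only at huv
    rw [← Nat.prod_primeFactors_of_squarefree (h1 u hu).1, ← Nat.prod_primeFactors_of_squarefree (h1 v hv).1, huv]
  have k1 : (U.card : ℝ) ≤ ∑ u ∈ U, (N : ℝ) ^ l * ∏ p ∈ u.primeFactors, (p : ℝ) ^ (-l) := by
    rw [card_eq_sum_ones, Nat.cast_sum]
    apply sum_le_sum
    intro u hu
    have hu0 : 0 < u := Nat.pos_of_ne_zero (h1 u hu).1.ne_zero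
    have hu0' : (0 : ℝ) < u := by exact_mod_cast hu0
    have e1 : ∏ p ∈ u.primeFactors, (p : ℝ) ^ (-l) = (u : ℝ) ^ (-l) := by
      rw [Real.finsetProd_rpow _ _ (fun i _ => Nat.cast_nonneg i), ← Nat.cast_prod,
        Nat.prod_primeFactors_of_squarefree (h1 u hu).1]
    rw [e1, Real.rpow_neg hu0'.le, ← div_eq_mul_inv, Nat.cast_one, le_div_iff₀ (Real.rpow_pos_of_pos hu0' _), one_mul]
    exact Real.rpow_le_rpow hu0'.le (by exact_mod_cast (h1 u hu).2) hl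
  rw [← mul_sum] at k1
  refine k1.trans (mul_le_mul_of_nonneg_left ?_ (by positivity))
  have k2 : ∑ u ∈ U, ∏ p ∈ u.primeFactors, (p : ℝ) ^ (-l) ≤
      ∑ S ∈ D.powerset, (if S.card ≤ J then ∏ p ∈ S, (p : ℝ) ^ (-l) else 0) := by
    rw [← sum_image (f := fun S : Finset ℕ => ∏ p ∈ S, (p : ℝ) ^ (-l)) hinj, ← sum_filter]
    apply sum_le_sum_of_subset_of_nonneg
    · intro S hS
      rw [mem_image] at hS
      obtain ⟨u, hu, rfl⟩ := hS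
      rw [mem_filter, mem_powerset]
      refine ⟨?_, h3 u hu⟩
      intro p hp
      rw [hD, mem_biUnion]
      exact ⟨u, hu, hp⟩
    · intro S _ _
      positivity
  refine k2.trans ((subsets_sum _ D (fun p _ => by positivity) J).trans ?_)
  apply pow_le_pow_left₀
  · have : 0 ≤ ∑ p ∈ D, (p : ℝ) ^ (-l) := sum_nonneg fun p _ => by positivity
    linarith
  · have := primes_sum3 hl hN hw D hDm
    linarith

end Pool.Agent.Zk8.LR
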