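import Mathlib
import Pool.Agent.Zk8.LR.C
import Pool.Agent.Zk8.LR.D

set_option autoImplicit false

/-! Indices `w` with `m ∣ U_w` for a nondegenerate Lucas sequence with small parameters, for almost all `m` (helper8, after
`Zk73/OR/E` of helper73, about exponents). -/

namespace Pool.Agent.Zk8.LR

open Finset Classical Filter
open Pool.Agent.Zk73.OR (fin_aux sum_inv)

theorem OnShared3.mono {B l : ℝ} {Q Q' : ℕ → Prop} (h : OnShared3 B l Q) (hQ : ∀ w : ℕ, 1 ≤ w → Q w → Q' w) :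
    OnShared3 B l Q' := by
  intro A
  obtain ⟨N₀, h⟩ := h A
  refine ⟨N₀, fun N hN => le_trans ?_ (h N hN)⟩
  apply Nat.cast_le.2
  apply Set.ncard_le_ncard _ (fin_aux _ _)
  rintro m ⟨h1, h2, h3⟩
  exact ⟨h1, h2, fun h4 => h3 fun w hw hwN hs => hQ w hw (h4 w hw hwN hs)⟩

theorem OnIndices.mono {B : ℝ} {R R' : ℕ → Prop} (h : OnIndices B R) (hR : ∀ w : ℕ, 1 ≤ w → R w → R' w) :
    OnIndices B R' := by
  obtain ⟨c, hc, h⟩ := h
  refine ⟨c, hc, fun A => ?_⟩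
  obtain ⟨N₀, h⟩ := h A
  refine ⟨N₀, fun N hN => le_trans ?_ (h N hN)⟩
  apply Nat.cast_le.2
  apply Set.ncard_le_ncard _ (fin_aux _ _)
  rintro m ⟨h1, h2, h3⟩
  exact ⟨h1, h2, fun h4 => h3 fun P Q w hP hQ hn hw hwN hd => hR w hw (h4 P Q w hP hQ hn hw hwN hd)⟩

theorem shared_out {θ B l : ℝ} (hθ0 : 0 ≤ θ) (hB : 0 ≤ B) (hl : 0 ≤ l) (h1 : B * θ + l < 1) (C₀ : ℝ) (W : Set ℕ)
    (hW : ∀ X : ℕ, 1 ≤ X → (((Icc 1 X).filter (fun w => w ∈ W)).card : ℝ) ≤ C₀ * (X : ℝ) ^ θ) :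
    OnShared3 B l (fun w => w ∉ W) := by
  intro A
  obtain ⟨N₀, hN₀⟩ := avoid' hl hθ0 hB h1 C₀ A
  refine ⟨N₀, fun N hN => le_trans (le_of_eq ?_) (hN₀ W hW N hN)⟩
  congr 1
  rw [← Set.ncard_coe_finset]
  congr 1
  ext m
  simp only [coe_filter, mem_Icc, Set.mem_ofPred_eq]
  constructor
  · rintro ⟨h1, h2, h3⟩
    push Not at h3
    obtain ⟨w, a1, a2, a3, a4⟩ := h3
    exact ⟨⟨h1, h2⟩, w, a4, a1, a2, a3⟩
  · rintro ⟨⟨h1, h2⟩, w, a4, a1, a2, a3⟩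
    exact ⟨h1, h2, fun h => h w a1 a2 a3 a4⟩

/-- the primes which divide a term of small index of a nondegenerate Lucas sequence with parameters `|P|, |Q| ≤ A` -/
def SmallRank (A : ℕ) (t : ℝ) : Set ℕ :=
  {p | p.Prime ∧ ∃ P Q : ℤ, |P| ≤ A ∧ |Q| ≤ A ∧ Nondeg P Q ∧ ∃ k : ℕ, 1 ≤ k ∧ (k : ℝ) ≤ (p : ℝ) ^ t ∧
    (p : ℤ) ∣ U P Q k}

lemma smallRank_count {A : ℕ} (hA : 1 ≤ A) {t : ℝ} (ht : 0 ≤ t) (X : ℕ) (hX : 1 ≤ X) :
    (((Icc 1 X).filter (fun p => p ∈ SmallRank A t)).card : ℝ) ≤ 36 * (A : ℝ) ^ 3 * (X : ℝ) ^ (2 * t) := by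
  have hX1 : (1 : ℝ) ≤ X := by exact_mod_cast hX
  have hA1 : (1 : ℝ) ≤ A := by exact_mod_cast hA
  obtain ⟨K, hK⟩ : ∃ K : ℕ, K = ⌊(X : ℝ) ^ t⌋₊ := ⟨_, rfl⟩
  have hXt : 1 ≤ (X : ℝ) ^ t := Real.one_le_rpow hX1 ht
  have hKle : (K : ℝ) ≤ (X : ℝ) ^ t := by rw [hK]; exact Nat.floor_le (by linarith)
  have h1 := small_ranks (A := A) (K := K) ((Icc 1 X).filter (fun p => p ∈ SmallRank A t)) (fun p hp => by
    rw [mem_filter, mem_Icc] at hp
    obtain ⟨⟨_, hpX⟩, hpp, P, Q, hP, hQ, hn, k, hk, hkp, hd⟩ := hp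
    refine ⟨hpp, P, Q, hP, hQ, hn, k, hk, ?_, hd⟩
    rw [hK]
    apply Nat.le_floor
    exact hkp.trans (Real.rpow_le_rpow (Nat.cast_nonneg _) (by exact_mod_cast hpX) ht))
  have h2 : (((Icc 1 X).filter (fun p => p ∈ SmallRank A t)).card : ℝ) ≤
      (2 * A + 1) * (2 * A + 1) * (K * (K * (Nat.log 2 (2 * A + 1) + 1))) := by exact_mod_cast h1
  have h3 : (Nat.log 2 (2 * A + 1) : ℝ) + 1 ≤ 4 * A := by
    have : Nat.log 2 (2 * A + 1) ≤ 2 * A + 1 := Nat.log_le_self 2 _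
    have : (Nat.log 2 (2 * A + 1) : ℝ) ≤ 2 * A + 1 := by exact_mod_cast this
    linarith
  have h4 : (K : ℝ) * (K * (Nat.log 2 (2 * A + 1) + 1)) ≤ (X : ℝ) ^ t * ((X : ℝ) ^ t * (4 * A)) := by
    gcongr
  have h5 : (2 * (A : ℝ) + 1) ≤ 3 * A := by linarith
  calc (((Icc 1 X).filter (fun p => p ∈ SmallRank A t)).card : ℝ)
      ≤ (2 * A + 1) * (2 * A + 1) * (K * (K * (Nat.log 2 (2 * A + 1) + 1))) := h2
    _ ≤ (3 * A) * (3 * A) * ((X : ℝ) ^ t * ((X : ℝ) ^ t * (4 * A))) := by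
        apply mul_le_mul _ h4 (by positivity) (by positivity)
        exact mul_le_mul h5 h5 (by positivity) (by positivity)
    _ = 36 * (A : ℝ) ^ 3 * ((X : ℝ) ^ t * (X : ℝ) ^ t) := by ring
    _ = _ := by
        rw [← Real.rpow_add (by linarith)]
        congr 2
        ring

/-- few integers are divisible by a large prime of small rank of apparition -/
lemma smallRank_multiples {t : ℝ} (ht0 : 0 ≤ t) (ht : t < 1 / 2) (A : ℕ) :
    ∃ c : ℝ, 0 < c ∧ c = (1 - 2 * t) / 5 ∧ ∃ N₀ : ℕ, ∀ N : ℕ, N₀ ≤ N →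
      (((Icc 1 N).filter (fun m => ∃ p ∈ SmallRank ⌊Real.exp (c * √(Real.log N))⌋₊ t,
        Real.exp √(Real.log N) < p ∧ p ∣ m)).card : ℝ) ≤ N / (2 * Real.log N ^ A) := by
  obtain ⟨c, hc⟩ : ∃ c : ℝ, c = (1 - 2 * t) / 5 := ⟨_, rfl⟩
  have hc0 : 0 < c := by rw [hc]; linarith
  refine ⟨c, hc0, hc, ?_⟩
  have hlim := Real.tendsto_pow_mul_exp_neg_atTop_nhds_zero (2 * (A + 1))
  have hr : Tendsto (fun N : ℕ => 2 * c * √(Real.log N)) atTop atTop := by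
    apply Tendsto.const_mul_atTop (by positivity)
    have h1 : Tendsto (fun N : ℕ => Real.log (N : ℝ)) atTop atTop :=
      Real.tendsto_log_atTop.comp tendsto_natCast_atTop_atTop
    exact Real.tendsto_sqrt_atTop.comp h1
  have h2 := (hlim.comp hr).eventually_lt_const (u := (2 * c) ^ (2 * (A + 1)) / 432) (by positivity)
  have h3 : ∀ᶠ N : ℕ in atTop, (3 : ℝ) ≤ Real.log N :=
    (Real.tendsto_log_atTop.comp tendsto_natCast_atTop_atTop).eventually_ge_atTop 3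
  obtain ⟨N₀, hN₀⟩ := eventually_atTop.1 (h2.and h3)
  refine ⟨max N₀ 1, fun N hN => ?_⟩
  obtain ⟨g1, g2⟩ := hN₀ N ((le_max_left _ _).trans hN)
  have hNN : 1 ≤ N := (le_max_right _ _).trans hN
  have hN0 : (0 : ℝ) < N := by exact_mod_cast hNN
  simp only [Function.comp_apply] at g1 g2
  obtain ⟨L, hL⟩ : ∃ L : ℝ, L = Real.log N := ⟨_, rfl⟩
  obtain ⟨r, hrr⟩ : ∃ r : ℝ, r = √L := ⟨_, rfl⟩
  rw [← hL] at g1 g2 ⊢
  rw [← hrr] at g1 ⊢
  have hL0 : 0 < L := by linarith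
  have hr0 : 0 ≤ r := by rw [hrr]; exact Real.sqrt_nonneg _
  have hr2 : r ^ 2 = L := by rw [hrr]; exact Real.sq_sqrt hL0.le
  obtain ⟨A₀, hA₀⟩ : ∃ A₀ : ℕ, A₀ = ⌊Real.exp (c * r)⌋₊ := ⟨_, rfl⟩
  rw [← hA₀]
  have hexp1 : 1 ≤ Real.exp (c * r) := Real.one_le_exp (by positivity)
  have hA₀1 : 1 ≤ A₀ := by rw [hA₀]; exact Nat.le_floor (by exact_mod_cast hexp1)
  have hA₀le : (A₀ : ℝ) ≤ Real.exp (c * r) := by rw [hA₀]; exact Nat.floor_le (by linarith)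
  have hY1 : 1 ≤ Real.exp r := Real.one_le_exp hr0
  have hsum := sum_inv (θ := 2 * t) (C₀ := 36 * (A₀ : ℝ) ^ 3) (by linarith) (SmallRank A₀ t)
    (fun X hX => smallRank_count hA₀1 ht0 X hX) hY1 N
  -- the numbers divisible by a bad prime
  have hcov : (Icc 1 N).filter (fun m => ∃ p ∈ SmallRank A₀ t, Real.exp r < p ∧ p ∣ m) ⊆
      ((Icc 1 N).filter (fun p : ℕ => p ∈ SmallRank A₀ t ∧ Real.exp r ≤ p)).biUnion
        (fun p => (Icc 1 N).filter (fun m => p ∣ m)) := by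
    intro m hm
    rw [mem_filter, mem_Icc] at hm
    obtain ⟨⟨m1, m2⟩, p, hp, hpr, hpm⟩ := hm
    rw [mem_biUnion]
    refine ⟨p, ?_, ?_⟩
    · rw [mem_filter, mem_Icc]
      exact ⟨⟨hp.1.pos, (Nat.le_of_dvd m1 hpm).trans m2⟩, hp, hpr.le⟩
    · rw [mem_filter, mem_Icc]
      exact ⟨⟨m1, m2⟩, hpm⟩
  have hone : ∀ p : ℕ, 1 ≤ p → (((Icc 1 N).filter (fun m => p ∣ m)).card : ℝ) ≤ N * (1 / p) := by
    intro p hp
    have hp0 : (0 : ℝ) < p := by exact_mod_cast hp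
    have h1 : ((Icc 1 N).filter (fun m => p ∣ m)).card = N / p := by
      have h0 : Icc 1 N = Ioc 0 N := by
        ext x
        rw [mem_Icc, mem_Ioc]
        omega
      rw [h0, Nat.Ioc_filter_dvd_card_eq_div]
    rw [h1, mul_one_div]
    exact Nat.cast_div_le
  have h5 : (((Icc 1 N).filter (fun m => ∃ p ∈ SmallRank A₀ t, Real.exp r < p ∧ p ∣ m)).card : ℝ) ≤
      N * ∑ p ∈ (Icc 1 N).filter (fun p : ℕ => p ∈ SmallRank A₀ t ∧ Real.exp r ≤ p), (1 : ℝ) / p := by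
    have e1 : (((Icc 1 N).filter (fun m => ∃ p ∈ SmallRank A₀ t, Real.exp r < p ∧ p ∣ m)).card : ℝ) ≤
        ∑ p ∈ (Icc 1 N).filter (fun p : ℕ => p ∈ SmallRank A₀ t ∧ Real.exp r ≤ p),
          (((Icc 1 N).filter (fun m => p ∣ m)).card : ℝ) := by
      exact_mod_cast (card_le_card hcov).trans card_biUnion_le
    refine e1.trans ?_
    rw [mul_sum]
    apply sum_le_sum
    intro p hp
    rw [mem_filter, mem_Icc] at hp
    exact hone p hp.1.1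
  refine h5.trans ?_
  have hlog : (Nat.log 2 N : ℝ) + 1 ≤ 3 * L := by
    have e1 : (Nat.log 2 N : ℝ) * Real.log 2 ≤ L := by
      have e2 := Nat.pow_log_le_self 2 (by omega : N ≠ 0)
      have e3 : ((2 : ℝ)) ^ (Nat.log 2 N) ≤ N := by exact_mod_cast e2
      have e4 := Real.log_le_log (by positivity) e3
      rw [Real.log_pow] at e4
      rw [hL]
      exact e4
    have e5 : (0.69 : ℝ) ≤ Real.log 2 := by
      have := Real.log_two_gt_d9
      linarith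
    have e6 : (0 : ℝ) ≤ Nat.log 2 N := Nat.cast_nonneg _
    nlinarith
  have e1 : (A₀ : ℝ) ^ 3 ≤ Real.exp (3 * c * r) := by
    calc (A₀ : ℝ) ^ 3 ≤ (Real.exp (c * r)) ^ 3 := pow_le_pow_left₀ (Nat.cast_nonneg _) hA₀le 3
      _ = Real.exp (3 * c * r) := by
        rw [← Real.exp_nat_mul]
        congr 1
        push_cast
        ring
  have e2 : (Real.exp r) ^ (2 * t - 1) = Real.exp (-(5 * c * r)) := by
    rw [← Real.exp_mul]
    congr 1
    rw [hc]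
    ring
  have e3 : 2 * (36 * (A₀ : ℝ) ^ 3) * (Nat.log 2 N + 1) * (Real.exp r) ^ (2 * t - 1) ≤
      216 * L * Real.exp (-(2 * c * r)) := by
    rw [e2]
    calc 2 * (36 * (A₀ : ℝ) ^ 3) * (Nat.log 2 N + 1) * Real.exp (-(5 * c * r))
        ≤ 2 * (36 * Real.exp (3 * c * r)) * (3 * L) * Real.exp (-(5 * c * r)) := by
          apply mul_le_mul_of_nonneg_right _ (Real.exp_pos _).le
          apply mul_le_mul _ hlog (by positivity) (by positivity)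
          linarith
      _ = 216 * L * (Real.exp (3 * c * r) * Real.exp (-(5 * c * r))) := by ring
      _ = _ := by
          rw [← Real.exp_add]
          congr 2
          ring
  have e4 : 216 * L * Real.exp (-(2 * c * r)) ≤ 1 / (2 * L ^ A) := by
    have a1 : (2 * c) ^ (2 * (A + 1)) * (L ^ (A + 1)) * Real.exp (-(2 * c * r)) <
        (2 * c) ^ (2 * (A + 1)) / 432 := by
      have : (2 * c * r) ^ (2 * (A + 1)) = (2 * c) ^ (2 * (A + 1)) * L ^ (A + 1) := by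
        rw [mul_pow, pow_mul r, hr2]
      rw [← this]
      exact g1
    have a2 : L ^ (A + 1) * Real.exp (-(2 * c * r)) < 1 / 432 := by
      have h0 : 0 < (2 * c) ^ (2 * (A + 1)) := by positivity
      have : (2 * c) ^ (2 * (A + 1)) * (L ^ (A + 1) * Real.exp (-(2 * c * r))) <
          (2 * c) ^ (2 * (A + 1)) * (1 / 432) := by
        calc _ = (2 * c) ^ (2 * (A + 1)) * (L ^ (A + 1)) * Real.exp (-(2 * c * r)) := by ring
          _ < _ := a1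
          _ = _ := by ring
      exact lt_of_mul_lt_mul_left this h0.le
    rw [le_div_iff₀ (by positivity)]
    calc 216 * L * Real.exp (-(2 * c * r)) * (2 * L ^ A) = 432 * (L ^ (A + 1) * Real.exp (-(2 * c * r))) := by ring
      _ ≤ 1 := by linarith
  calc (N : ℝ) * ∑ p ∈ (Icc 1 N).filter (fun p : ℕ => p ∈ SmallRank A₀ t ∧ Real.exp r ≤ p), (1 : ℝ) / p
      ≤ N * (1 / (2 * L ^ A)) := mul_le_mul_of_nonneg_left (hsum.trans (e3.trans e4)) hN0.le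
    _ = _ := by ring

/-- **Indices avoid sparse sets.** -/
theorem indices_out {θ B : ℝ} (hθ0 : 0 ≤ θ) (hB : 0 ≤ B) (h1 : B * θ < 1 / 2) (C₀ : ℝ) (W : Set ℕ)
    (hW : ∀ X : ℕ, 1 ≤ X → (((Icc 1 X).filter (fun w => w ∈ W)).card : ℝ) ≤ C₀ * (X : ℝ) ^ θ) :
    OnIndices B (fun w => w ∉ W) := by
  have hBθ : 0 ≤ B * θ := by positivity
  obtain ⟨l, hl⟩ : ∃ l : ℝ, l = 3 / 4 - B * θ / 2 := ⟨_, rfl⟩
  have hl0 : 0 ≤ l := by rw [hl]; linarith
  obtain ⟨t, ht⟩ : ∃ t : ℝ, t = 1 - l := ⟨_, rfl⟩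
  have ht0 : 0 ≤ t := by rw [ht, hl]; linarith
  have htp : 0 < t := by rw [ht, hl]; linarith
  have ht1 : t < 1 / 2 := by rw [ht, hl]; linarith
  have hsh := shared_out hθ0 hB hl0 (by rw [hl]; linarith) C₀ W hW
  refine ⟨(1 - 2 * t) / 5, by linarith, fun A => ?_⟩
  obtain ⟨c, hc0, hc, N₁, hN₁⟩ := smallRank_multiples ht0 ht1 A
  have hc1 : c ≤ 1 := by rw [hc]; linarith
  rw [← hc]
  obtain ⟨N₂, hN₂⟩ := hsh (A + 1)
  have h3 : ∀ᶠ N : ℕ in atTop, (2 : ℝ) ≤ Real.log N :=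
    (Real.tendsto_log_atTop.comp tendsto_natCast_atTop_atTop).eventually_ge_atTop 2
  obtain ⟨N₃, hN₃⟩ := eventually_atTop.1 h3
  refine ⟨max (max N₁ N₂) (max N₃ 1), fun N hN => ?_⟩
  have b1 := hN₁ N ((le_max_left _ _).trans ((le_max_left _ _).trans hN))
  have b2 := hN₂ N ((le_max_right _ _).trans ((le_max_left _ _).trans hN))
  have b3 := hN₃ N ((le_max_left _ _).trans ((le_max_right _ _).trans hN))
  have hN1 : 1 ≤ N := (le_max_right _ _).trans ((le_max_right _ _).trans hN)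
  have hN0 : (0 : ℝ) < N := by exact_mod_cast hN1
  have hcov : {m : ℕ | 1 ≤ m ∧ m ≤ N ∧ ¬ ∀ (P Q : ℤ) (w : ℕ), (|P| : ℝ) ≤ Real.exp (c * √(Real.log N)) →
      (|Q| : ℝ) ≤ Real.exp (c * √(Real.log N)) → Nondeg P Q → 1 ≤ w → (w : ℝ) ≤ (N : ℝ) ^ B → (m : ℤ) ∣ U P Q w →
      w ∉ W} ⊆
      {m : ℕ | 1 ≤ m ∧ m ≤ N ∧ ¬ ∀ w : ℕ, 1 ≤ w → (w : ℝ) ≤ (N : ℝ) ^ B →
        Shares3 l (Real.exp √(Real.log N)) m w → w ∉ W} ∪
      (((Icc 1 N).filter (fun m => ∃ p ∈ SmallRank ⌊Real.exp (c * √(Real.log N))⌋₊ t,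
        Real.exp √(Real.log N) < p ∧ p ∣ m) : Finset ℕ) : Set ℕ) := by
    rintro m ⟨m1, m2, m3⟩
    push Not at m3
    obtain ⟨P, Q, w, hP, hQ, hnd, hw, hwN, hd, hwW⟩ := m3
    by_cases hbad : ∃ p ∈ SmallRank ⌊Real.exp (c * √(Real.log N))⌋₊ t, Real.exp √(Real.log N) < p ∧ p ∣ m
    · right
      rw [mem_coe, mem_filter, mem_Icc]
      exact ⟨⟨m1, m2⟩, hbad⟩
    · left
      refine ⟨m1, m2, fun h => h w hw hwN ?_ hwW⟩
      intro p hp hpy hpm _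
      have hsmall : ∀ a : ℤ, (|a| : ℝ) ≤ Real.exp (c * √(Real.log N)) → (p : ℤ) ∣ a → a = 0 := by
        intro a ha hda
        by_contra ha0
        have h1 := Int.le_of_dvd (abs_pos.2 ha0) ((dvd_abs _ _).2 hda)
        have h2 : (p : ℝ) ≤ (|a| : ℝ) := by exact_mod_cast h1
        have h3 : Real.exp (c * √(Real.log N)) ≤ Real.exp √(Real.log N) :=
          Real.exp_le_exp.2 (mul_le_of_le_one_left (Real.sqrt_nonneg _) hc1)
        linarith
      have hpd : (p : ℤ) ∣ U P Q w := (Int.natCast_dvd_natCast.2 hpm).trans hd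
      have hpQ : ¬ (p : ℤ) ∣ Q := by
        intro hdQ
        have hQ0 := hsmall Q hQ hdQ
        subst hQ0
        obtain ⟨v, rfl⟩ : ∃ v, w = v + 1 := ⟨w - 1, by omega⟩
        rw [U_zero] at hpd
        have h2 : (p : ℤ) ∣ P := (Nat.prime_iff_prime_int.1 hp).dvd_of_dvd_pow hpd
        have h3 := hsmall P hP h2
        exact hnd 2 (by norm_num) (by rw [U_zero, h3]; norm_num)
      obtain ⟨z, hz, hstr⟩ := rank_struct hp (P := P) hpQ
      have hzw : z ∣ w := (hstr w).1 hpd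
      have hpos : 1 ≤ z := Nat.pos_of_dvd_of_pos hzw hw
      have hbig : (p : ℝ) ^ t ≤ (z : ℝ) := by
        by_contra hlt
        apply hbad
        have hint : ∀ a : ℤ, (|a| : ℝ) ≤ Real.exp (c * √(Real.log N)) →
            |a| ≤ ((⌊Real.exp (c * √(Real.log N))⌋₊ : ℕ) : ℤ) := by
          intro a hac
          have e1 : ((a.natAbs : ℕ) : ℝ) ≤ Real.exp (c * √(Real.log N)) := by
            rw [Nat.cast_natAbs, Int.cast_abs]
            exact hac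
          have e2 := Nat.le_floor e1
          rw [Int.abs_eq_natAbs]
          exact_mod_cast e2
        exact ⟨p, ⟨hp, P, Q, hint P hP, hint Q hQ, hnd, z, hpos, (not_le.1 hlt).le, (hstr z).2 dvd_rfl⟩, hpy, hpm⟩
      rw [ht] at hbig
      rcases hz with hz | hz | hz
      · left
        have hgcd : z ≤ Nat.gcd w (p - 1) := Nat.le_of_dvd (Nat.gcd_pos_of_pos_left _ hw) (Nat.dvd_gcd hzw hz)
        exact hbig.trans (by exact_mod_cast hgcd)
      · right; left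
        rcases (Nat.dvd_prime hp).1 hz with h1 | h1
        · exfalso
          rw [h1, Nat.cast_one, ← ht] at hbig
          have : 1 < (p : ℝ) ^ t := Real.one_lt_rpow (by exact_mod_cast hp.one_lt) htp
          linarith
        · rwa [h1] at hzw
      · right; right
        have hgcd : z ≤ Nat.gcd w (p + 1) := Nat.le_of_dvd (Nat.gcd_pos_of_pos_left _ hw) (Nat.dvd_gcd hzw hz)
        exact hbig.trans (by exact_mod_cast hgcd)
  have h4 : (({m : ℕ | 1 ≤ m ∧ m ≤ N ∧ ¬ ∀ (P Q : ℤ) (w : ℕ), (|P| : ℝ) ≤ Real.exp (c * √(Real.log N)) →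
      (|Q| : ℝ) ≤ Real.exp (c * √(Real.log N)) → Nondeg P Q → 1 ≤ w → (w : ℝ) ≤ (N : ℝ) ^ B → (m : ℤ) ∣ U P Q w →
      w ∉ W}.ncard : ℕ) : ℝ) ≤
      ({m : ℕ | 1 ≤ m ∧ m ≤ N ∧ ¬ ∀ w : ℕ, 1 ≤ w → (w : ℝ) ≤ (N : ℝ) ^ B →
        Shares3 l (Real.exp √(Real.log N)) m w → w ∉ W}.ncard : ℝ) +
      (((Icc 1 N).filter (fun m => ∃ p ∈ SmallRank ⌊Real.exp (c * √(Real.log N))⌋₊ t,
        Real.exp √(Real.log N) < p ∧ p ∣ m)).card : ℝ) := by
    have h5 := Set.ncard_le_ncard hcov ((fin_aux _ _).union (finite_toSet _))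
    have h6 := h5.trans (Set.ncard_union_le _ _)
    rw [Set.ncard_coe_finset] at h6
    exact_mod_cast h6
  refine h4.trans ((add_le_add b2 b1).trans ?_)
  have hLA : 0 < Real.log N ^ A := by positivity
  have e1 : (N : ℝ) / Real.log N ^ (A + 1) ≤ N / (2 * Real.log N ^ A) := by
    apply div_le_div_of_nonneg_left hN0.le (by positivity)
    rw [pow_succ]
    nlinarith
  have e2 : (N : ℝ) / (2 * Real.log N ^ A) + N / (2 * Real.log N ^ A) = N / Real.log N ^ A := by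
    field_simp
    norm_num
  linarith

end Pool.Agent.Zk8.LR
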