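import Mathlib
import Pool.Agent.Zk8.LR.B
import Pool.Agent.Zk98.LE
import Pool.Agent.Zk52.LRK.Mat

set_option autoImplicit false

/-! Exceptional sets with a saving of every power of the logarithm: ranks of apparition of almost all primes, chains
(helper8, after `Zk98/LE` of helper98). -/

namespace Pool.Agent.Zk8.LR

open Finset Classical
open Pool.Agent.N375.AV (LogThin absorb)
open Pool.Agent.Zk73.OR (log_small)
open Pool.Agent.Zk98.LD (Spread Keeps Chain keeps_comp keeps_union pre small_N near_multiples')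
open Pool.Agent.Zk52.LRK (UnitRanks MatrixOrders keeps_unitRanks keeps_matrixOrders)

/-- if `p` is a prime, the ranks of apparition of `p` in all nondegenerate Lucas sequences with parameters
`|P|, |Q| ≤ p ^ c` -/
def Ranks (c : ℝ) (p : ℕ) : Set ℕ :=
  {w | p.Prime ∧ ∃ P Q : ℤ, (|P| : ℝ) ≤ (p : ℝ) ^ c ∧ (|Q| : ℝ) ≤ (p : ℝ) ^ c ∧ Nondeg P Q ∧ IsRank p P Q w}

theorem ranks_spread {c : ℝ} (hc0 : 0 ≤ c) (hc : c < 1 / 2) : Spread (Ranks c) := by
  intro U'
  obtain ⟨δ, hδ⟩ : ∃ δ : ℝ, δ = (1 - 2 * c) / 4 := ⟨_, rfl⟩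
  have hδ0 : 0 < δ := by rw [hδ]; linarith
  obtain ⟨CL, hCL0, hCL⟩ := log_small hδ0
  obtain ⟨K₄, hK₄, habs4⟩ := absorb U' (b := 1) (c := δ) one_pos hδ0
  obtain ⟨L₀, hL₀⟩ : ∃ L₀ : ℝ, L₀ = 1 / δ ^ 2 + 1 := ⟨_, rfl⟩
  have hL₀0 : 0 ≤ L₀ := by rw [hL₀]; positivity
  obtain ⟨C, hC⟩ := exists_nat_ge ((1 + L₀) ^ U' + 27 * CL * K₄ + 6)
  have h6 : (0 : ℝ) < (1 + L₀) ^ U' := by positivity
  have h7 : 0 ≤ 27 * CL * K₄ := by positivity
  refine ⟨1 / 2, C, by norm_num, fun N hN => ?_⟩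
  have hN1 : (1 : ℝ) ≤ N := by exact_mod_cast hN
  have hN0 : (0 : ℝ) < N := by linarith
  obtain ⟨L, hL⟩ : ∃ L, L = Real.log N := ⟨_, rfl⟩
  have hL0 : 0 ≤ L := by rw [hL]; exact Real.log_nonneg hN1
  have hPU : 0 < (1 + L) ^ U' := by positivity
  by_cases hc5 : L < L₀
  · refine ⟨Icc 1 N, ?_, fun m h1 h2 h3 => (h3 (mem_Icc.2 ⟨h1, h2⟩)).elim, ?_⟩
    · refine (small_N U' hN (by rw [← hL]; exact hc5)).trans ?_
      rw [← hL]
      apply div_le_div_of_nonneg_right _ hPU.le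
      exact mul_le_mul_of_nonneg_right (by linarith) hN0.le
    · intro w hw M hM
      have : M = ∅ := by
        rw [Finset.eq_empty_iff_forall_notMem]
        intro m hm
        obtain ⟨a1, a2, a3, -⟩ := hM m hm
        exact a3 (mem_Icc.2 ⟨a1, a2⟩)
      rw [this, card_empty, Nat.cast_zero]
      have := Real.log_nonneg hN1
      positivity
  have hLL : L₀ ≤ L := not_lt.1 hc5
  have hNd : Real.exp (δ * L) = (N : ℝ) ^ δ := by
    rw [Real.rpow_def_of_pos hN0, hL, mul_comm]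
  obtain ⟨A, hA⟩ : ∃ A : ℕ, A = ⌊(N : ℝ) ^ c⌋₊ := ⟨_, rfl⟩
  obtain ⟨K, hK⟩ : ∃ K : ℕ, K = ⌊(N : ℝ) ^ δ⌋₊ := ⟨_, rfl⟩
  have hNc : 1 ≤ (N : ℝ) ^ c := Real.one_le_rpow hN1 hc0
  have hNδ : 1 ≤ (N : ℝ) ^ δ := Real.one_le_rpow hN1 hδ0.le
  have hAle : (A : ℝ) ≤ (N : ℝ) ^ c := by rw [hA]; exact Nat.floor_le (by linarith)
  have hKle : (K : ℝ) ≤ (N : ℝ) ^ δ := by rw [hK]; exact Nat.floor_le (by linarith)
  obtain ⟨B, hB⟩ : ∃ B : Finset ℕ, B = (Icc (1 : ℕ) N).filter (fun p : ℕ => p.Prime ∧ ∃ P Q : ℤ, |P| ≤ (A : ℤ) ∧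
    |Q| ≤ (A : ℤ) ∧ Nondeg P Q ∧ ∃ k : ℕ, 1 ≤ k ∧ k ≤ K ∧ (p : ℤ) ∣ U P Q k) := ⟨_, rfl⟩
  have hBc := small_ranks B (fun p hp => by
    rw [hB, mem_filter] at hp
    exact hp.2)
  have hB3 : (B.card : ℝ) ≤ 27 * CL * (N : ℝ) ^ (1 - δ) := by
    have hA3 : (2 * (A : ℝ) + 1) ≤ 3 * (N : ℝ) ^ c := by linarith
    have hAN : (A : ℝ) ≤ N := by
      calc (A : ℝ) ≤ (N : ℝ) ^ c := hAle
        _ ≤ (N : ℝ) ^ (1 : ℝ) := Real.rpow_le_rpow_of_exponent_le hN1 (by linarith)
        _ = N := Real.rpow_one _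
    have e0 : Nat.log 2 (2 * A + 1) + 1 ≤ 3 * (Nat.log 2 N + 1) := by
      have hAN' : A ≤ N := by exact_mod_cast hAN
      have a2 : Nat.log 2 (2 * A + 1) ≤ Nat.log 2 (N * 2 ^ 2) := Nat.log_mono_right (by omega)
      have a3 : Nat.log 2 (N * 2 ^ 2) = Nat.log 2 N + 2 := by
        rw [show N * 2 ^ 2 = N * 2 * 2 by ring, Nat.log_mul_base (by norm_num) (by omega),
          Nat.log_mul_base (by norm_num) (by omega)]
      omega
    have e1 : (B.card : ℝ) ≤ (2 * A + 1) * (2 * A + 1) * (K * (K * (3 * (Nat.log 2 N + 1)))) := by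
      have e2 : B.card ≤ (2 * A + 1) * (2 * A + 1) * (K * (K * (3 * (Nat.log 2 N + 1)))) := by
        refine hBc.trans ?_
        gcongr
      exact_mod_cast e2
    have e3 := hCL N hN
    have e5 : (K : ℝ) * (K * (3 * (Nat.log 2 N + 1))) ≤ (N : ℝ) ^ δ * ((N : ℝ) ^ δ * (3 * (CL * (N : ℝ) ^ δ))) := by
      gcongr
    calc (B.card : ℝ) ≤ (2 * A + 1) * (2 * A + 1) * (K * (K * (3 * (Nat.log 2 N + 1)))) := e1
      _ ≤ (3 * (N : ℝ) ^ c) * (3 * (N : ℝ) ^ c) * ((N : ℝ) ^ δ * ((N : ℝ) ^ δ * (3 * (CL * (N : ℝ) ^ δ)))) := by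
          apply mul_le_mul _ e5 (by positivity) (by positivity)
          exact mul_le_mul hA3 hA3 (by positivity) (by positivity)
      _ = 27 * CL * ((N : ℝ) ^ c * (N : ℝ) ^ c * (N : ℝ) ^ δ * (N : ℝ) ^ δ * (N : ℝ) ^ δ) := by ring
      _ = 27 * CL * (N : ℝ) ^ (1 - δ) := by
          rw [← Real.rpow_add hN0, ← Real.rpow_add hN0, ← Real.rpow_add hN0, ← Real.rpow_add hN0]
          congr 2
          rw [hδ]
          ring
  refine ⟨B, ?_, ?_, ?_⟩
  · rw [← hL, le_div_iff₀ hPU]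
    have h1 := habs4 L hL0
    rw [Real.rpow_one, hNd] at h1
    calc (B.card : ℝ) * (1 + L) ^ U' ≤ (27 * CL * (N : ℝ) ^ (1 - δ)) * (K₄ * (N : ℝ) ^ δ) :=
          mul_le_mul hB3 h1 hPU.le (by positivity)
      _ = 27 * CL * K₄ * ((N : ℝ) ^ (1 - δ) * (N : ℝ) ^ δ) := by ring
      _ = 27 * CL * K₄ * N := by
          rw [← Real.rpow_add hN0, sub_add_cancel, Real.rpow_one]
      _ ≤ C * N := mul_le_mul_of_nonneg_right (by linarith) hN0.le
  · intro p hp1 hpN hpB w hw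
    obtain ⟨hp, P, Q, hP, hQ, hnd, hr⟩ := hw
    have hpN' : (p : ℝ) ≤ N := by exact_mod_cast hpN
    constructor
    · by_contra hcon
      apply hpB
      have hint : ∀ a : ℤ, (|a| : ℝ) ≤ (p : ℝ) ^ c → |a| ≤ (A : ℤ) := by
        intro a hac
        have e1 : ((a.natAbs : ℕ) : ℝ) ≤ (N : ℝ) ^ c := by
          have : ((a.natAbs : ℕ) : ℝ) = (|a| : ℝ) := by
            rw [Nat.cast_natAbs, Int.cast_abs]
          rw [this]
          exact hac.trans (Real.rpow_le_rpow (Nat.cast_nonneg _) hpN' hc0)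
        have e2 : a.natAbs ≤ A := by
          rw [hA]
          exact Nat.le_floor e1
        rw [Int.abs_eq_natAbs]
        exact_mod_cast e2
      rw [hB, mem_filter, mem_Icc]
      refine ⟨⟨hp.pos, hpN⟩, hp, P, Q, hint P hP, hint Q hQ, hnd, w, hr.1, ?_, hr.2.1⟩
      rw [hK]
      apply Nat.le_floor
      refine (not_le.1 hcon).le.trans ?_
      rw [← hNd, ← hL]
      apply Real.exp_le_exp.2
      rw [← Real.sqrt_eq_rpow]
      apply Real.sqrt_le_iff.2
      refine ⟨by positivity, ?_⟩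
      have e3 : 1 ≤ δ ^ 2 * (L - 1) := by
        have e4 : 1 / δ ^ 2 ≤ L - 1 := by linarith
        rw [div_le_iff₀ (by positivity)] at e4
        linarith
      have e5 : 1 ≤ L := by
        have : 0 < 1 / δ ^ 2 := by positivity
        linarith
      have e6 : 1 / δ ^ 2 ≤ L := by linarith
      rw [div_le_iff₀ (by positivity)] at e6
      nlinarith [sq_nonneg δ]
    · have hC2 : 2 ≤ C := by
        have : (2 : ℝ) ≤ C := by linarith
        exact_mod_cast this
      have hp2 := hp.two_le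
      have h2 : w ≤ p + 1 := by
        rcases rank_pos_dvd hp (by linarith) hP hQ hnd hr with h | h | h
        · have := Nat.le_of_dvd (by omega) h
          omega
        · have := Nat.le_of_dvd (by omega) h
          omega
        · exact Nat.le_of_dvd (by omega) h
      calc w ≤ p + 1 := h2
        _ ≤ N + 1 := by omega
        _ ≤ N ^ 2 := by nlinarith
        _ ≤ N ^ C := Nat.pow_le_pow_right (by omega) hC2
  · intro w hw M hM
    have h1 := near_multiples' hw (le_refl (1 : ℝ)) (N := N) M (fun p hp => by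
      obtain ⟨-, a2, -, a3, P, Q, hP, hQ, hnd, hr⟩ := hM p hp
      have hp2 := a3.two_le
      refine ⟨a2, ?_⟩
      rcases rank_pos_dvd a3 (by linarith) hP hQ hnd hr with h | h | h
      · refine ⟨p - 1, by omega, h, ?_⟩
        rw [Nat.cast_sub a3.one_le]
        simp
      · refine ⟨p, by omega, h, ?_⟩
        simp
      · refine ⟨p + 1, by omega, h, ?_⟩
        push_cast
        simp)
    refine h1.trans ?_
    rw [← hL]
    apply div_le_div_of_nonneg_right _ (Nat.cast_nonneg _)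
    have h2 : 1 ≤ (1 + L) ^ C := one_le_pow₀ (by linarith)
    calc 3 * 1 * ((N : ℝ) + 1) ≤ 6 * N * 1 := by linarith
      _ ≤ C * N * (1 + L) ^ C := by
          apply mul_le_mul _ h2 (by norm_num) (by positivity)
          exact mul_le_mul_of_nonneg_right (by linarith) hN0.le

/-- **Chains with a rank step.** The set valued functions composed (by compositions and unions) of rank steps, at least one, and
of the chains of `Zk98/LE`. Rank steps, for a prime `m` (for other `m` they are empty): the ranks of apparition of `m` in all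
nondegenerate Lucas sequences with `|P|, |Q| ≤ m ^ c`, `c < 1 / 2`, or with `|P| ≤ m ^ c`, `c < 1`, and `Q = 1` or `Q = -1`; the
orders modulo `m` of all integral `2 × 2` matrices `A` of determinant `1` or `-1`, of infinite order and not scalar modulo `m`,
with `|tr A| ≤ m ^ c`, `c < 1` (these steps are due to helper52). -/
inductive RankChain : (ℕ → Set ℕ) → Prop
  | ranks (c : ℝ) : 0 ≤ c → c < 1 / 2 → RankChain (Ranks c)
  | units (c : ℝ) : 0 ≤ c → c < 1 → RankChain (UnitRanks c)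
  | matrices (c : ℝ) : 0 ≤ c → c < 1 → RankChain (MatrixOrders c)
  | before (F G : ℕ → Set ℕ) : RankChain F → Chain G → RankChain (fun m => {w | ∃ v ∈ G m, w ∈ F v})
  | after (F G : ℕ → Set ℕ) : Chain F → RankChain G → RankChain (fun m => {w | ∃ v ∈ G m, w ∈ F v})
  | comp (F G : ℕ → Set ℕ) : RankChain F → RankChain G → RankChain (fun m => {w | ∃ v ∈ G m, w ∈ F v})
  | union (F G : ℕ → Set ℕ) : RankChain F → RankChain G → RankChain (fun m => F m ∪ G m)

theorem RankChain.keeps {F : ℕ → Set ℕ} (hF : RankChain F) : Keeps F := by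
  induction hF with
  | ranks c hc0 hc => exact (ranks_spread hc0 hc).keeps
  | units c hc0 hc => exact keeps_unitRanks hc0 hc
  | matrices c hc0 hc => exact keeps_matrixOrders hc0 hc
  | before F G _ hG ihF => exact keeps_comp ihF hG.keeps
  | after F G hF _ ihG => exact keeps_comp hF.keeps ihG
  | comp F G _ _ ihF ihG => exact keeps_comp ihF ihG
  | union F G _ _ ihF ihG => exact keeps_union ihF ihG

/-- **Main tool.** -/
theorem RankChain.count {F : ℕ → Set ℕ} (hF : RankChain F) {E : Set ℕ} (hE : LogThin E) (V : ℕ) :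
    ∃ N₀ : ℕ, ∀ N : ℕ, N₀ ≤ N →
      ({m : ℕ | 1 ≤ m ∧ m ≤ N ∧ ∃ n ∈ F m, n ∈ E}.ncard : ℝ) ≤ N / Real.log N ^ V := by
  obtain ⟨K, hK⟩ := hF.keeps E hE (V + 1)
  obtain ⟨N₀, hN₀⟩ := exists_nat_ge (Real.exp (|K| + 1))
  refine ⟨N₀, fun N hN => ?_⟩
  have hN0' : Real.exp (|K| + 1) ≤ N := hN₀.trans (by exact_mod_cast hN)
  have hN0 : (0 : ℝ) < N := lt_of_lt_of_le (Real.exp_pos _) hN0'
  have hN1 : 1 ≤ N := by exact_mod_cast hN0
  have hl : |K| + 1 ≤ Real.log N := by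
    rw [Real.le_log_iff_exp_le hN0]
    exact hN0'
  have hK0 := abs_nonneg K
  have h2 := hK N hN1
  have h3 : {m : ℕ | 1 ≤ m ∧ m ≤ N ∧ ∃ n ∈ F m, n ∈ E} ⊆
      (((range (N + 1)).filter (fun v => v ∈ pre F E) : Finset ℕ) : Set ℕ) := by
    rintro m ⟨hm1, hmN, hm⟩
    rw [mem_coe, mem_filter, mem_range]
    exact ⟨by omega, hm⟩
  have h4 := Set.ncard_le_ncard h3 (finite_toSet _)
  rw [Set.ncard_coe_finset] at h4
  have h5 : ({m : ℕ | 1 ≤ m ∧ m ≤ N ∧ ∃ n ∈ F m, n ∈ E}.ncard : ℝ) ≤ K * N / (1 + Real.log N) ^ (V + 1) :=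
    le_trans (by exact_mod_cast h4) h2
  refine h5.trans ?_
  have h6 : K * N ≤ Real.log N * N := mul_le_mul_of_nonneg_right (by linarith [le_abs_self K]) hN0.le
  have hl0 : 0 < Real.log N := by linarith
  calc K * N / (1 + Real.log N) ^ (V + 1) ≤ Real.log N * N / (1 + Real.log N) ^ (V + 1) := by gcongr
    _ ≤ Real.log N * N / Real.log N ^ (V + 1) := by
        apply div_le_div_of_nonneg_left (by positivity) (by positivity)
        exact pow_le_pow_left₀ hl0.le (by linarith) _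
    _ = N / Real.log N ^ V := by
        rw [pow_succ]
        field_simp

end Pool.Agent.Zk8.LR
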